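import Pool.Agent.Vor.Faces

/-!
The sum over the levels for arbitrary laws
-/

set_option autoImplicit false

namespace Pool.Agent.Vws

open MeasureTheory Set
open scoped ENNReal NNReal
open Pool.Agent.Vor (E dl line wt Near Faces)

-- BEGIN gws
/-- As `Vor.wt_star` (row w1): the integrand is 2 on the set and 0 elsewhere. -/
theorem wt_star_gen {μ : Measure E} {D : E → ℝ} (hD : Measurable D) (δ : ℝ) (j : ℕ) (star : Prop)
    [Decidable star] (hs : star) :
    ∫⁻ x, wt δ j star (D x) ∂μ = 2 * μ {x | j * δ ≤ D x ∧ D x < (j + 1) * δ} := by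
  have hS : MeasurableSet {x | (j : ℝ) * δ ≤ D x ∧ D x < ((j : ℝ) + 1) * δ} :=
    (measurableSet_le measurable_const hD).inter (measurableSet_lt hD measurable_const)
  rw [← lintegral_indicator_const hS]
  refine lintegral_congr fun x => ?_
  unfold wt
  rw [if_pos hs]
  by_cases hx : x ∈ {x | (j : ℝ) * δ ≤ D x ∧ D x < ((j : ℝ) + 1) * δ}
  · rw [indicator_of_mem hx, if_pos (show (j : ℝ) * δ ≤ D x ∧ D x < ((j : ℝ) + 1) * δ from hx)]
  · rw [indicator_of_notMem hx,
      if_neg (show ¬ ((j : ℝ) * δ ≤ D x ∧ D x < ((j : ℝ) + 1) * δ) from hx)]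
-- END gws

-- BEGIN gwo
/-- As `Vor.wt_other` (row w0): `wt + 1{D < jδ} = 1 + 1{jδ ≤ D < (j+3)δ}` pointwise; integrate, pass to `ofReal`. -/
theorem wt_other_gen {μ : Measure E} [IsProbabilityMeasure μ] {D : E → ℝ} (hD : Measurable D)
    {δ : ℝ} (hδ : 0 < δ) (j : ℕ) (star : Prop) [Decidable star] (hs : ¬ star) :
    ∫⁻ x, wt δ j star (D x) ∂μ = ENNReal.ofReal (1 - μ.real {x | D x < (j : ℝ) * δ} +
      (μ.real {x | D x < ((j + 3 : ℕ) : ℝ) * δ} - μ.real {x | D x < (j : ℝ) * δ})) := by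
  set S1 : Set E := {x | D x < (j : ℝ) * δ} with hS1
  set S3 : Set E := {x | D x < ((j + 3 : ℕ) : ℝ) * δ} with hS3
  have m1 : MeasurableSet S1 := measurableSet_lt hD measurable_const
  have m3 : MeasurableSet S3 := measurableSet_lt hD measurable_const
  have h13 : ((j : ℝ)) * δ ≤ ((j + 3 : ℕ) : ℝ) * δ :=
    mul_le_mul_of_nonneg_right (by push_cast; linarith) hδ.le
  set X : ℝ≥0∞ := ∫⁻ x, wt δ j star (D x) ∂μ with hX
  have key : X + (μ S1 + μ S1) = 1 + μ S3 := by
    have e1 : ∫⁻ x, S1.indicator (fun _ => (1 : ℝ≥0∞)) x ∂μ = μ S1 := by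
      rw [lintegral_indicator_const m1, one_mul]
    have e3 : ∫⁻ x, S3.indicator (fun _ => (1 : ℝ≥0∞)) x ∂μ = μ S3 := by
      rw [lintegral_indicator_const m3, one_mul]
    have e0 : ∫⁻ _x, (1 : ℝ≥0∞) ∂μ = 1 := by
      rw [lintegral_one, measure_univ]
    have n1 : Measurable (S1.indicator (fun _ => (1 : ℝ≥0∞))) := measurable_const.indicator m1
    have n11 : Measurable fun x => S1.indicator (fun _ => (1 : ℝ≥0∞)) x +
        S1.indicator (fun _ => (1 : ℝ≥0∞)) x := n1.add n1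
    have n3 : Measurable (S3.indicator (fun _ => (1 : ℝ≥0∞))) := measurable_const.indicator m3
    calc X + (μ S1 + μ S1) = ∫⁻ x, (wt δ j star (D x) +
          (S1.indicator (fun _ => (1 : ℝ≥0∞)) x + S1.indicator (fun _ => (1 : ℝ≥0∞)) x)) ∂μ := by
          rw [lintegral_add_right _ n11, lintegral_add_right _ n1, e1]
      _ = ∫⁻ x, (1 + S3.indicator (fun _ => (1 : ℝ≥0∞)) x) ∂μ := by
          refine lintegral_congr fun x => ?_
          unfold wt
          rw [if_neg hs]
          by_cases h1 : D x < (j : ℝ) * δ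
          · rw [if_neg (not_le.2 h1), indicator_of_mem (show x ∈ S1 from h1),
              indicator_of_mem (show x ∈ S3 from h1.trans_le h13), zero_add]
          · rw [if_pos (not_lt.1 h1), indicator_of_notMem (show x ∉ S1 from h1), add_zero, add_zero]
            by_cases h3 : D x < ((j + 3 : ℕ) : ℝ) * δ
            · rw [indicator_of_mem (show x ∈ S3 from h3),
                if_pos (show D x < ((j : ℝ) + 3) * δ by push_cast at h3; exact h3), one_add_one_eq_two]
            · rw [indicator_of_notMem (show x ∉ S3 from h3),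
                if_neg (show ¬ D x < ((j : ℝ) + 3) * δ by push_cast at h3; exact h3), add_zero]
      _ = 1 + μ S3 := by rw [lintegral_add_right _ n3, e0, e3]
  have hXf : X ≠ ⊤ := by
    intro hx
    rw [hx, top_add] at key
    exact (ENNReal.add_ne_top.2 ⟨ENNReal.one_ne_top, measure_ne_top μ S3⟩) key.symm
  have f1 : μ S1 ≠ ⊤ := measure_ne_top μ S1
  have f3 : μ S3 ≠ ⊤ := measure_ne_top μ S3
  have hr : X.toReal + (μ.real S1 + μ.real S1) = 1 + μ.real S3 := by
    have := congrArg ENNReal.toReal key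
    rw [ENNReal.toReal_add hXf (ENNReal.add_ne_top.2 ⟨f1, f1⟩), ENNReal.toReal_add f1 f1,
      ENNReal.toReal_add ENNReal.one_ne_top f3, ENNReal.toReal_one] at this
    exact this
  rw [← ENNReal.ofReal_toReal hXf]
  congr 1
  linarith
-- END gwo

-- BEGIN tel2
/-- `A (j+1) ≤ (12/11)(A j + 18)`, so `A (j+3) - A j ≤ 0.3 A j + 65`, `A j ≥ (11/12) A (j+1) - 18`: the exponent is `≤ -A (j+1)/2 + 78`; `(a' - a) exp (-a'/2) ≤ 2 (exp (-a/2) - exp (-a'/2))`; telescope as in `Vor.tele`. -/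
theorem tele2 {A : ℕ → ℝ} (h0 : A 0 = 0) (hA : Monotone A)
    (h : ∀ j, A (j + 1) - A j ≤ A (j + 1) / 12 + 18) (J : ℕ) :
    ∑ j ∈ Finset.range J, (A (j + 1) - A j) * Real.exp (-A j + (A (j + 3) - A j)) ≤
      2 * Real.exp 78 := by
  have hnn : ∀ j, 0 ≤ A j := fun j => by
    rw [← h0]
    exact hA (Nat.zero_le j)
  have hexp : ∀ j, -A j + (A (j + 3) - A j) ≤ -(A (j + 1)) / 2 + 78 := by
    intro j
    have e1 := h j
    have e2 := h (j + 1)
    have e3 := h (j + 2)
    have r2 : A (j + 1 + 1) = A (j + 2) := rfl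
    have r3 : A (j + 2 + 1) = A (j + 3) := rfl
    rw [r2] at e2
    rw [r3] at e3
    have n0 := hnn j
    have n1 := hnn (j + 1)
    linarith
  have hterm : ∀ j, (A (j + 1) - A j) * Real.exp (-A j + (A (j + 3) - A j)) ≤
      2 * Real.exp 78 * (Real.exp (-(A j) / 2) - Real.exp (-(A (j + 1)) / 2)) := by
    intro j
    have hd : 0 ≤ A (j + 1) - A j := sub_nonneg.2 (hA (Nat.le_succ j))
    have h1 : (A (j + 1) - A j) * Real.exp (-A j + (A (j + 3) - A j)) ≤
        (A (j + 1) - A j) * (Real.exp (-(A (j + 1)) / 2) * Real.exp 78) := by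
      rw [← Real.exp_add]
      exact mul_le_mul_of_nonneg_left (Real.exp_le_exp.2 (hexp j)) hd
    have h2 : (A (j + 1) - A j) / 2 + 1 ≤ Real.exp ((A (j + 1) - A j) / 2) :=
      Real.add_one_le_exp _
    have h3 : Real.exp (-(A j) / 2) =
        Real.exp ((A (j + 1) - A j) / 2) * Real.exp (-(A (j + 1)) / 2) := by
      rw [← Real.exp_add]
      congr 1
      ring
    have h4 : (A (j + 1) - A j) * Real.exp (-(A (j + 1)) / 2) ≤
        2 * (Real.exp (-(A j) / 2) - Real.exp (-(A (j + 1)) / 2)) := by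
      rw [h3]
      have hp := Real.exp_pos (-(A (j + 1)) / 2)
      nlinarith [mul_le_mul_of_nonneg_right h2 hp.le]
    calc (A (j + 1) - A j) * Real.exp (-A j + (A (j + 3) - A j))
        ≤ (A (j + 1) - A j) * (Real.exp (-(A (j + 1)) / 2) * Real.exp 78) := h1
      _ = ((A (j + 1) - A j) * Real.exp (-(A (j + 1)) / 2)) * Real.exp 78 := by ring
      _ ≤ (2 * (Real.exp (-(A j) / 2) - Real.exp (-(A (j + 1)) / 2))) * Real.exp 78 :=
          mul_le_mul_of_nonneg_right h4 (Real.exp_pos _).le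
      _ = 2 * Real.exp 78 * (Real.exp (-(A j) / 2) - Real.exp (-(A (j + 1)) / 2)) := by ring
  have htel : ∑ j ∈ Finset.range J, (Real.exp (-(A j) / 2) - Real.exp (-(A (j + 1)) / 2)) =
      Real.exp (-(A 0) / 2) - Real.exp (-(A J) / 2) := by
    exact Finset.sum_range_sub' (fun j => Real.exp (-(A j) / 2)) J
  calc ∑ j ∈ Finset.range J, (A (j + 1) - A j) * Real.exp (-A j + (A (j + 3) - A j))
      ≤ ∑ j ∈ Finset.range J,
          2 * Real.exp 78 * (Real.exp (-(A j) / 2) - Real.exp (-(A (j + 1)) / 2)) :=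
        Finset.sum_le_sum fun j _ => hterm j
    _ = 2 * Real.exp 78 * (Real.exp (-(A 0) / 2) - Real.exp (-(A J) / 2)) := by
        rw [← Finset.mul_sum, htel]
    _ ≤ 2 * Real.exp 78 * 1 := by
        refine mul_le_mul_of_nonneg_left ?_ (by positivity)
        rw [h0]
        have := Real.exp_pos (-(A J) / 2)
        simp only [neg_zero, zero_div, Real.exp_zero]
        linarith
    _ = 2 * Real.exp 78 := mul_one _
-- END tel2

-- BEGIN ppg
/-- As `Vor.per_point` (row ptg) with `F i j = (μ i).real {D i < jδ}`, `A j = ∑ i, F i j`, `A (j+1) - A j ≤ A (j+1)/12 + 18` (sum of the hypothesis), rows gws, gwo, `Vor.prod_exp`, tel2: `2 e · 2 e^78`. -/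
theorem per_point_gen {n : ℕ} (hn : 0 < n) (μ : Fin n → Measure E) [∀ i, IsProbabilityMeasure (μ i)]
    (D : Fin n → E → ℝ) (hD : ∀ i, Measurable (D i)) (h0 : ∀ i x, 0 ≤ D i x) {δ : ℝ} (hδ : 0 < δ)
    (h : ∀ i (j : ℕ), (μ i).real {x | D i x < ((j + 1 : ℕ) : ℝ) * δ} -
      (μ i).real {x | D i x < (j : ℝ) * δ} ≤
      (μ i).real {x | D i x < ((j + 1 : ℕ) : ℝ) * δ} / 12 + 18 / n) :
    ∑' j : ℕ, ∑ i0, ∏ i, ∫⁻ x, wt δ j (i = i0) (D i x) ∂(μ i) ≤ ENNReal.ofReal (4 * Real.exp 79) := by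
  set F : Fin n → ℕ → ℝ := fun i j => (μ i).real {x | D i x < (j : ℝ) * δ} with hF
  set A : ℕ → ℝ := fun j => ∑ i, F i j with hA
  have hsub : ∀ i (a b : ℕ), a ≤ b → {x | D i x < (a : ℝ) * δ} ⊆ {x | D i x < (b : ℝ) * δ} := by
    intro i a b hab x hx
    have hx' : D i x < (a : ℝ) * δ := hx
    have hab' : (a : ℝ) ≤ b := by exact_mod_cast hab
    exact hx'.trans_le (mul_le_mul_of_nonneg_right hab' hδ.le)
  have hF0 : ∀ i j, 0 ≤ F i j := fun i j => measureReal_nonneg
  have hF1 : ∀ i j, F i j ≤ 1 := fun i j => measureReal_le_one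
  have hFm : ∀ i, Monotone (F i) := fun i a b hab => measureReal_mono (hsub i a b hab)
  have hFz : ∀ i, F i 0 = 0 := by
    intro i
    have e : {x | D i x < ((0 : ℕ) : ℝ) * δ} = ∅ := by
      refine Set.eq_empty_of_forall_notMem fun x hx => ?_
      have hx' : D i x < ((0 : ℕ) : ℝ) * δ := hx
      rw [Nat.cast_zero, zero_mul] at hx'
      exact absurd hx' (not_lt.2 (h0 i x))
    show (μ i).real {x | D i x < ((0 : ℕ) : ℝ) * δ} = 0
    rw [e, measureReal_empty]
  have hAm : Monotone A := fun a b hab => Finset.sum_le_sum fun i _ => hFm i hab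
  have hA0 : A 0 = 0 := Finset.sum_eq_zero fun i _ => hFz i
  have hn0 : (n : ℝ) ≠ 0 := by exact_mod_cast hn.ne'
  have hAd : ∀ j, A (j + 1) - A j = ∑ i, (F i (j + 1) - F i j) := fun j =>
    Finset.sum_sub_distrib .. |>.symm
  have hAs : ∀ j, A (j + 1) - A j ≤ A (j + 1) / 12 + 18 := by
    intro j
    rw [hAd]
    refine (Finset.sum_le_sum fun i _ => h i j).trans (le_of_eq ?_)
    rw [Finset.sum_add_distrib, ← Finset.sum_div, Finset.sum_const, Finset.card_univ,
      Fintype.card_fin, nsmul_eq_mul, mul_div_cancel₀ _ hn0]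
  have hring : ∀ i (j : ℕ), (μ i) {x | (j : ℝ) * δ ≤ D i x ∧ D i x < ((j : ℝ) + 1) * δ} =
      ENNReal.ofReal (F i (j + 1) - F i j) := by
    intro i j
    have m1 : MeasurableSet {x | D i x < (j : ℝ) * δ} := measurableSet_lt (hD i) measurable_const
    have e : {x | (j : ℝ) * δ ≤ D i x ∧ D i x < ((j : ℝ) + 1) * δ} =
        {x | D i x < ((j + 1 : ℕ) : ℝ) * δ} \ {x | D i x < (j : ℝ) * δ} := by
      ext x
      constructor
      · rintro ⟨h1, h2⟩
        refine ⟨?_, fun h3 => absurd h3 (not_lt.2 h1)⟩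
        show D i x < ((j + 1 : ℕ) : ℝ) * δ
        rw [Nat.cast_add, Nat.cast_one]
        exact h2
      · rintro ⟨h1, h2⟩
        have h1' : D i x < ((j + 1 : ℕ) : ℝ) * δ := h1
        rw [Nat.cast_add, Nat.cast_one] at h1'
        exact ⟨not_lt.1 h2, h1'⟩
    rw [e, measure_sdiff (hsub i j (j + 1) (Nat.le_succ j)) m1.nullMeasurableSet (measure_ne_top _ _),
      ENNReal.ofReal_sub _ (hF0 i j)]
    show _ = ENNReal.ofReal ((μ i).real _) - ENNReal.ofReal ((μ i).real _)
    rw [ofReal_measureReal, ofReal_measureReal]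
  have hd0 : ∀ i j, 0 ≤ F i (j + 1) - F i j := fun i j => sub_nonneg.2 (hFm i (Nat.le_succ j))
  have term : ∀ j i0, ∏ i, ∫⁻ x, wt δ j (i = i0) (D i x) ∂(μ i) ≤
      ENNReal.ofReal (2 * (F i0 (j + 1) - F i0 j) *
        (Real.exp 1 * Real.exp (-A j + (A (j + 3) - A j)))) := by
    intro j i0
    rw [← Finset.mul_prod_erase Finset.univ _ (Finset.mem_univ i0)]
    have e1 : ∫⁻ x, wt δ j (i0 = i0) (D i0 x) ∂(μ i0) =
        ENNReal.ofReal (2 * (F i0 (j + 1) - F i0 j)) := by
      rw [wt_star_gen (hD i0) δ j (i0 = i0) rfl, hring, ENNReal.ofReal_mul (by norm_num)]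
      norm_num
    have e2 : ∀ i ∈ Finset.univ.erase i0, ∫⁻ x, wt δ j (i = i0) (D i x) ∂(μ i) =
        ENNReal.ofReal (1 - F i j + (F i (j + 3) - F i j)) := by
      intro i hi
      exact wt_other_gen (hD i) hδ j (i = i0) (Finset.ne_of_mem_erase hi)
    rw [Finset.prod_congr rfl e2, e1, ← ENNReal.ofReal_prod_of_nonneg,
      ← ENNReal.ofReal_mul (by have := hd0 i0 j; positivity)]
    · apply ENNReal.ofReal_le_ofReal
      apply mul_le_mul_of_nonneg_left _ (by have := hd0 i0 j; positivity)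
      exact Vor.prod_exp (fun i => F i j) (fun i => F i (j + 3)) (fun i => hF0 i j)
        (fun i => hFm i (by omega)) (fun i => hF1 i (j + 3)) i0
    · intro i _
      have a1 := hF1 i j
      have a2 := hFm i (show j ≤ j + 3 by omega)
      linarith
  have row : ∀ j, ∑ i0, ∏ i, ∫⁻ x, wt δ j (i = i0) (D i x) ∂(μ i) ≤
      ENNReal.ofReal (2 * Real.exp 1 *
        ((A (j + 1) - A j) * Real.exp (-A j + (A (j + 3) - A j)))) := by
    intro j
    refine (Finset.sum_le_sum fun i0 _ => term j i0).trans ?_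
    rw [← ENNReal.ofReal_sum_of_nonneg]
    · apply ENNReal.ofReal_le_ofReal
      apply le_of_eq
      rw [hAd, ← Finset.sum_mul, ← Finset.mul_sum]
      ring
    · intro i0 _
      have := hd0 i0 j
      positivity
  apply ENNReal.tsum_le_of_sum_range_le
  intro J
  refine (Finset.sum_le_sum fun j _ => row j).trans ?_
  rw [← ENNReal.ofReal_sum_of_nonneg]
  · apply ENNReal.ofReal_le_ofReal
    rw [← Finset.mul_sum]
    have t := tele2 hA0 hAm hAs J
    have e : (4 : ℝ) * Real.exp 79 = 2 * Real.exp 1 * (2 * Real.exp 78) := by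
      have : Real.exp 79 = Real.exp 1 * Real.exp 78 := by rw [← Real.exp_add]; norm_num
      rw [this]; ring
    rw [e]
    exact mul_le_mul_of_nonneg_left t (by positivity)
  · intro j _
    have : 0 ≤ A (j + 1) - A j := sub_nonneg.2 (hAm (by omega))
    positivity
-- END ppg

end Pool.Agent.Vws
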