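import Pool.Agent.Vrd.Geo
import Pool.Agent.Vor.Main

/-!
Conical rings: the law of the distance from a fixed point to a line through the origin with a random
direction
-/

set_option autoImplicit false

namespace Pool.Agent.Vws

open MeasureTheory Set
open scoped ENNReal NNReal
open Pool.Agent.Vor (E dl line wt Near Faces)
open Pool.Agent.Vrd (dv lev grid farGrid nearPsi farVec farPsi sgn IsChart)

/-- the conical ring `a |⟪u,v⟫| ≤ dl u v < b |⟪u,v⟫|` around the axis `u` -/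
def cr (u : E) (a b : ℝ) : Set E :=
  {v | a * |(inner ℝ u v : ℝ)| ≤ dl u v ∧ dl u v < b * |(inner ℝ u v : ℝ)|}

/-- the mass of a conical ring for the density `g` -/
noncomputable def cm (u : E) (g : E → ℝ≥0) (a b : ℝ) : ℝ≥0∞ := ∫⁻ v in cr u a b, g v

/-- scaling of the component orthogonal to `u` -/
noncomputable def st (u : E) (t : ℝ) (v : E) : E := t • v + ((1 - t) * (inner ℝ u v : ℝ)) • u

/-- the tangent of the angle whose sine is `r / R` -/
noncomputable def tn (R r : ℝ) : ℝ := r / Real.sqrt (R ^ 2 - r ^ 2)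

-- BEGIN rot2
/-- The proof of `Vor.exists_rot` (Vor/Geo, row rot; `Vor.rot_basis`): the same `φ` has `(φ z).1 = b.repr z 0 = ⟪u, z⟫`. -/
theorem exists_rot2 {u : E} (hu : ‖u‖ = 1) :
    ∃ φ : E → ℝ × EuclideanSpace ℝ (Fin 2), MeasurePreserving φ volume (volume.prod volume) ∧
      ∀ z, (φ z).1 = inner ℝ u z ∧ ‖(φ z).2‖ = dl u z := by
  obtain ⟨b, hb⟩ := Pool.Agent.Vor.rot_basis hu
  have e1 : MeasurePreserving b.repr volume volume := b.measurePreserving_repr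
  have e2 : MeasurePreserving (@WithLp.ofLp 2 (Fin 3 → ℝ)) := PiLp.volume_preserving_ofLp _
  have e3 := volume_preserving_piFinSuccAbove (fun _ : Fin 3 => ℝ) 0
  have e4 : MeasurePreserving
      (Prod.map (id : ℝ → ℝ) (@WithLp.toLp 2 (Fin 2 → ℝ))) (volume.prod volume) (volume.prod volume) :=
    (MeasurePreserving.id _).prod (PiLp.volume_preserving_toLp (Fin 2))
  refine ⟨_, e4.comp (e3.comp (e2.comp e1)), fun z => ⟨?_, ?_⟩⟩
  · have h1 : b.repr z 0 = inner ℝ u z := by rw [b.repr_apply_apply, hb]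
    exact h1
  · have k0 : b.repr (z - (inner ℝ u z) • u) 0 = 0 := by
      rw [b.repr_apply_apply, hb, inner_sub_right, inner_smul_right, real_inner_self_eq_norm_sq, hu]
      ring
    have k1 : ∀ k : Fin 3, k ≠ 0 → b.repr (z - (inner ℝ u z) • u) k = b.repr z k := by
      intro k hk
      rw [b.repr_apply_apply, b.repr_apply_apply, inner_sub_right, inner_smul_right]
      have : inner ℝ (b k) u = (0 : ℝ) := by rw [← hb]; exact b.orthonormal.2 hk
      rw [this]; ring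
    have hd : dl u z = ‖b.repr (z - (inner ℝ u z) • u)‖ := by
      rw [b.repr.norm_map]; rfl
    rw [hd, EuclideanSpace.norm_eq, EuclideanSpace.norm_eq, Fin.sum_univ_three, Fin.sum_univ_two,
      k0, k1 1 (by decide), k1 2 (by decide)]
    have h3 : ((Prod.map (id : ℝ → ℝ) (@WithLp.toLp 2 (Fin 2 → ℝ)) ∘
        (MeasurableEquiv.piFinSuccAbove (fun _ : Fin 3 => ℝ) 0) ∘
        (@WithLp.ofLp 2 (Fin 3 → ℝ)) ∘ b.repr) z).2 0 = b.repr z 1 := rfl
    have h4 : ((Prod.map (id : ℝ → ℝ) (@WithLp.toLp 2 (Fin 2 → ℝ)) ∘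
        (MeasurableEquiv.piFinSuccAbove (fun _ : Fin 3 => ℝ) 0) ∘
        (@WithLp.ofLp 2 (Fin 3 → ℝ)) ∘ b.repr) z).2 1 = b.repr z 2 := rfl
    rw [h3, h4]
    simp
-- END rot2

-- BEGIN cms
/-- `dl u` and `⟪u, ·⟫` are continuous (`Vor.dl_basic`). -/
theorem measurableSet_cr {u : E} (hu : ‖u‖ = 1) (a b : ℝ) : MeasurableSet (cr u a b) := by
  have h1 : Continuous fun v : E => dl u v := (Pool.Agent.Vor.dl_basic hu).1
  have h2 : Continuous fun v : E => |(inner ℝ u v : ℝ)| :=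
    (continuous_const.inner continuous_id).abs
  exact (measurableSet_le (h2.const_smul a).measurable h1.measurable).inter
    (measurableSet_lt h1.measurable (h2.const_smul b).measurable)
-- END cms

-- BEGIN cvol
/-- By row rot2 the set is contained in the preimage of `{q | |q.1| ≤ 1 ∧ a |q.1| ≤ ‖q.2‖ ∧ ‖q.2‖ < b |q.1|}`; `Measure.prod_apply`: for `|x| ≤ 1` the slice is an annulus of area `π (b² - a²) x² ≤ π (b² - a²)` (`EuclideanSpace.volume_ball_fin_two`, `measure_diff`), otherwise empty; total at most `2 π (b² - a²)`. See the proof of `Vor.volume_ring_le`. -/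
theorem cone_volume {u : E} (hu : ‖u‖ = 1) {a b : ℝ} (ha : 0 ≤ a) (hab : a ≤ b) :
    volume {v : E | ‖v‖ ≤ 1 ∧ v ∈ cr u a b} ≤ ENNReal.ofReal (7 * (b ^ 2 - a ^ 2)) := by
  obtain ⟨φ, hφ, hφ2⟩ := exists_rot2 hu
  have hb : 0 ≤ b := le_trans ha hab
  have hD : 0 ≤ b ^ 2 - a ^ 2 := by nlinarith
  set S : Set (ℝ × EuclideanSpace ℝ (Fin 2)) :=
    {q | |q.1| ≤ 1 ∧ a * |q.1| ≤ ‖q.2‖ ∧ ‖q.2‖ < b * |q.1|} with hS
  have hm1 : Measurable fun q : ℝ × EuclideanSpace ℝ (Fin 2) => |q.1| := (continuous_abs.comp continuous_fst).measurable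
  have hm2 : Measurable fun q : ℝ × EuclideanSpace ℝ (Fin 2) => ‖q.2‖ := (continuous_norm.comp continuous_snd).measurable
  have hSm : MeasurableSet S :=
    (measurableSet_le hm1 measurable_const).inter
      ((measurableSet_le (measurable_const.mul hm1) hm2).inter (measurableSet_lt hm2 (measurable_const.mul hm1)))
  have hsub : {v : E | ‖v‖ ≤ 1 ∧ v ∈ cr u a b} ⊆ φ ⁻¹' S := by
    rintro v ⟨h1, h2⟩
    obtain ⟨h3, h4⟩ := hφ2 v
    change a * |(inner ℝ u v : ℝ)| ≤ dl u v ∧ dl u v < b * |(inner ℝ u v : ℝ)| at h2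
    change |(φ v).1| ≤ 1 ∧ a * |(φ v).1| ≤ ‖(φ v).2‖ ∧ ‖(φ v).2‖ < b * |(φ v).1|
    rw [h3, h4]
    refine ⟨?_, h2.1, h2.2⟩
    have h5 := abs_real_inner_le_norm u v
    rw [hu, one_mul] at h5
    exact le_trans h5 h1
  refine le_trans (measure_mono hsub) ?_
  rw [hφ.measure_preimage hSm.nullMeasurableSet, Measure.prod_apply hSm]
  have hsl : ∀ x : ℝ, volume (Prod.mk x ⁻¹' S) ≤
      (Icc (-1 : ℝ) 1).indicator (fun _ => ENNReal.ofReal (Real.pi * (b ^ 2 - a ^ 2))) x := by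
    intro x
    by_cases hx : |x| ≤ 1
    · rw [indicator_of_mem (mem_Icc.mpr (abs_le.mp hx))]
      have h1 : Prod.mk x ⁻¹' S ⊆ Metric.ball (0 : EuclideanSpace ℝ (Fin 2)) (b * |x|) \ Metric.ball 0 (a * |x|) := by
        rintro y ⟨_, h2, h3⟩
        refine ⟨?_, ?_⟩
        · rw [mem_ball_zero_iff]; exact h3
        · rw [mem_ball_zero_iff]; exact not_lt.mpr h2
      refine le_trans (measure_mono h1) ?_
      have hax : 0 ≤ a * |x| := mul_nonneg ha (abs_nonneg x)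
      have hbx : 0 ≤ b * |x| := mul_nonneg hb (abs_nonneg x)
      rw [measure_sdiff (Metric.ball_subset_ball (mul_le_mul_of_nonneg_right hab (abs_nonneg x)))
        measurableSet_ball.nullMeasurableSet measure_ball_lt_top.ne,
        EuclideanSpace.volume_ball_fin_two, EuclideanSpace.volume_ball_fin_two]
      have e1 : ENNReal.ofReal (b * |x|) ^ 2 * ENNReal.ofReal Real.pi = ENNReal.ofReal ((b * |x|) ^ 2 * Real.pi) := by
        rw [ENNReal.ofReal_mul (p := (b * |x|) ^ 2) (q := Real.pi) (by positivity), ENNReal.ofReal_pow hbx]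
      have e2 : ENNReal.ofReal (a * |x|) ^ 2 * ENNReal.ofReal Real.pi = ENNReal.ofReal ((a * |x|) ^ 2 * Real.pi) := by
        rw [ENNReal.ofReal_mul (p := (a * |x|) ^ 2) (q := Real.pi) (by positivity), ENNReal.ofReal_pow hax]
      rw [e1, e2, ← ENNReal.ofReal_sub _ (by positivity)]
      apply ENNReal.ofReal_le_ofReal
      have hx2 : |x| ^ 2 ≤ 1 := pow_le_one₀ (abs_nonneg x) hx
      have h3 : (b * |x|) ^ 2 * Real.pi - (a * |x|) ^ 2 * Real.pi = (Real.pi * (b ^ 2 - a ^ 2)) * |x| ^ 2 := by ring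
      rw [h3]
      exact mul_le_of_le_one_right (mul_nonneg Real.pi_pos.le hD) hx2
    · have h1 : Prod.mk x ⁻¹' S = ∅ := by
        apply eq_empty_of_forall_notMem
        rintro y ⟨h2, _⟩
        exact hx h2
      rw [h1, measure_empty]
      exact zero_le
  refine le_trans (lintegral_mono hsl) ?_
  rw [lintegral_indicator measurableSet_Icc, lintegral_const, Measure.restrict_apply_univ, Real.volume_Icc,
    ← ENNReal.ofReal_mul (mul_nonneg Real.pi_pos.le hD)]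
  apply ENNReal.ofReal_le_ofReal
  have h4 : Real.pi ≤ 3.5 := by linarith [Real.pi_lt_d2]
  nlinarith [mul_le_mul_of_nonneg_right h4 hD]
-- END cvol

-- BEGIN cbig
/-- By row rot2 (and `dl u v ≤ ‖v‖ ≤ 1`) the set is contained in the preimage of `Icc (-1/τ) (1/τ) ×ˢ closedBall 0 1`, of measure `2 π / τ`. -/
theorem cone_outer {u : E} (hu : ‖u‖ = 1) {τ : ℝ} (hτ : 0 < τ) :
    volume {v : E | ‖v‖ ≤ 1 ∧ τ * |(inner ℝ u v : ℝ)| ≤ dl u v} ≤ ENNReal.ofReal (7 / τ) := by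
  obtain ⟨φ, hφ, hφ2⟩ := exists_rot2 hu
  have hsub : {v : E | ‖v‖ ≤ 1 ∧ τ * |(inner ℝ u v : ℝ)| ≤ dl u v} ⊆
      φ ⁻¹' (Icc (-(1 / τ)) (1 / τ) ×ˢ Metric.closedBall (0 : EuclideanSpace ℝ (Fin 2)) 1) := by
    rintro v ⟨h1, h2⟩
    obtain ⟨h3, h4⟩ := hφ2 v
    have h5 : dl u v ≤ 1 := ((Pool.Agent.Vor.dl_basic hu).2.2.1 v).trans h1
    rw [mem_preimage, mem_prod]
    refine ⟨mem_Icc.mpr (abs_le.mp ?_), ?_⟩
    · rw [h3, le_div_iff₀ hτ, mul_comm]
      exact h2.trans h5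
    · rw [mem_closedBall_zero_iff, h4]
      exact h5
  have hms : MeasurableSet (Icc (-(1 / τ)) (1 / τ) ×ˢ
      Metric.closedBall (0 : EuclideanSpace ℝ (Fin 2)) 1) :=
    measurableSet_Icc.prod measurableSet_closedBall
  refine le_trans (measure_mono hsub) ?_
  rw [hφ.measure_preimage hms.nullMeasurableSet, Measure.prod_prod, Real.volume_Icc,
    EuclideanSpace.volume_closedBall_fin_two]
  rw [ENNReal.ofReal_one, one_pow, one_mul, ← ENNReal.ofReal_mul (by
    have : 0 < 1 / τ := by positivity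
    linarith)]
  refine ENNReal.ofReal_le_ofReal ?_
  have h7 : (1 / τ - -(1 / τ)) * Real.pi = 2 * Real.pi / τ := by ring
  rw [h7]
  refine div_le_div_of_nonneg_right ?_ hτ.le
  linarith [Real.pi_lt_d2]
-- END cbig

-- BEGIN cscl
private noncomputable def cscl_f (u : E) (t : ℝ) : E →ₗ[ℝ] E :=
  t • LinearMap.id + (1 - t) • (((innerSL ℝ u) : E →L[ℝ] ℝ) : E →ₗ[ℝ] ℝ).smulRight u

private theorem cscl_f_apply (u : E) (t : ℝ) (v : E) : cscl_f u t v = st u t v := by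
  simp [cscl_f, st, smul_smul]

private theorem cscl_det {u : E} (hu : ‖u‖ = 1) (t : ℝ) : LinearMap.det (cscl_f u t) = t ^ 2 := by
  obtain ⟨b, hb⟩ := Pool.Agent.Vor.rot_basis hu
  have hin : ∀ j, (inner ℝ u (b j) : ℝ) = if (0 : Fin 3) = j then 1 else 0 := by
    intro j
    rw [← hb]
    exact orthonormal_iff_ite.1 b.orthonormal 0 j
  have key : ∀ j, cscl_f u t (b j) = ((![1, t, t] : Fin 3 → ℝ) j) • b j := by
    intro j
    rw [cscl_f_apply, st, hin j]
    fin_cases j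
    · simp only [Fin.zero_eta, if_true, mul_one, Matrix.cons_val_zero, one_smul]
      rw [hb, ← add_smul]
      simp
    · simp
    · simp
  have hM : LinearMap.toMatrix b.toBasis b.toBasis (cscl_f u t) =
      Matrix.diagonal (![1, t, t] : Fin 3 → ℝ) := by
    ext i j
    rw [LinearMap.toMatrix_apply, OrthonormalBasis.coe_toBasis, key j, map_smul, Matrix.diagonal_apply]
    rw [← OrthonormalBasis.coe_toBasis b, Module.Basis.repr_self]
    rw [Finsupp.smul_apply, Finsupp.single_apply]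
    by_cases hij : j = i
    · subst hij
      simp
    · rw [if_neg hij, if_neg (Ne.symm hij), smul_zero]
  rw [← LinearMap.det_toMatrix b.toBasis, hM, Matrix.det_diagonal]
  simp [Fin.prod_univ_three]
  ring

private theorem cscl_inner {u : E} (hu : ‖u‖ = 1) (t : ℝ) (v : E) :
    (inner ℝ u (st u t v) : ℝ) = inner ℝ u v := by
  rw [st, inner_add_right, real_inner_smul_right, real_inner_smul_right,
    real_inner_self_eq_norm_sq, hu]
  ring

private theorem cscl_dl {u : E} (hu : ‖u‖ = 1) {t : ℝ} (ht : 0 < t) (v : E) :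
    dl u (st u t v) = t * dl u v := by
  unfold Pool.Agent.Vor.dl
  rw [cscl_inner hu]
  have e : st u t v - (inner ℝ u v : ℝ) • u = t • (v - (inner ℝ u v : ℝ) • u) := by
    unfold st
    module
  rw [e, norm_smul, Real.norm_of_nonneg ht.le]

/-- `st u t` is linear, bijective, maps `cr u a b` onto `cr u (t a) (t b)` (`⟪u, st u t v⟫ = ⟪u,v⟫`, `dl u (st u t v) = t dl u v`); its determinant is `t²` (matrix `diag (1,t,t)` in the basis of `Vor.rot_basis`): `Measure.map_linearMap_addHaar_eq_smul_addHaar` or `Measure.addHaar_image_linearMap`. -/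
theorem cone_scale {u : E} (hu : ‖u‖ = 1) {t : ℝ} (ht : 0 < t) (a b : ℝ) (g : E → ℝ≥0)
    (hg : Measurable g) :
    cm u g (t * a) (t * b) = ENNReal.ofReal (t ^ 2) * ∫⁻ v in cr u a b, g (st u t v) := by
  have hdet : LinearMap.det (cscl_f u t) ≠ 0 := by
    rw [cscl_det hu]
    positivity
  have hmap := Measure.map_linearMap_addHaar_eq_smul_addHaar (volume : Measure E) hdet
  have hmeas : Measurable (cscl_f u t) := (LinearMap.continuous_of_finiteDimensional _).measurable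
  have hpre : (cscl_f u t) ⁻¹' (cr u (t * a) (t * b)) = cr u a b := by
    ext v
    simp only [mem_preimage, cscl_f_apply, cr, mem_ofPred_eq, cscl_inner hu, cscl_dl hu ht, mul_assoc,
      mul_le_mul_iff_right₀ ht, mul_lt_mul_iff_right₀ ht]
  have hset := measurableSet_cr hu (t * a) (t * b)
  have h1 : ∫⁻ v in cr u a b, (g (st u t v) : ℝ≥0∞) =
      ∫⁻ w in cr u (t * a) (t * b), (g w : ℝ≥0∞) ∂(Measure.map (cscl_f u t) volume) := by
    rw [setLIntegral_map hset (by fun_prop) hmeas, hpre]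
    simp only [cscl_f_apply]
  rw [hmap, Measure.restrict_smul, lintegral_smul_measure, cscl_det hu] at h1
  unfold cm
  rw [h1, smul_eq_mul, ← mul_assoc, abs_inv, abs_of_pos (by positivity : (0 : ℝ) < t ^ 2),
    ← ENNReal.ofReal_mul (by positivity), mul_inv_cancel₀ (by positivity), ENNReal.ofReal_one,
    one_mul]
-- END cscl

-- BEGIN cadd
/-- `cr u x z` is the disjoint union of `cr u x y` and `cr u y z`; `lintegral_union`. -/
theorem cone_add {u : E} (hu : ‖u‖ = 1) (g : E → ℝ≥0) {x y z : ℝ} (hxy : x ≤ y) (hyz : y ≤ z) :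
    cm u g x z = cm u g x y + cm u g y z := by
  unfold cm
  rw [← lintegral_union (measurableSet_cr hu y z)]
  · have h : cr u x z = cr u x y ∪ cr u y z := by
      ext v
      have hA : 0 ≤ |(inner ℝ u v : ℝ)| := abs_nonneg _
      have h1 : x * |(inner ℝ u v : ℝ)| ≤ y * |(inner ℝ u v : ℝ)| := mul_le_mul_of_nonneg_right hxy hA
      have h2 : y * |(inner ℝ u v : ℝ)| ≤ z * |(inner ℝ u v : ℝ)| := mul_le_mul_of_nonneg_right hyz hA
      constructor
      · rintro ⟨h3, h4⟩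
        rcases lt_or_ge (dl u v) (y * |(inner ℝ u v : ℝ)|) with h5 | h5
        · exact Or.inl ⟨h3, h5⟩
        · exact Or.inr ⟨h5, h4⟩
      · rintro (⟨h3, h4⟩ | ⟨h3, h4⟩)
        · exact ⟨h3, h4.trans_le h2⟩
        · exact ⟨h1.trans h3, h4⟩
    rw [h]
  · rw [Set.disjoint_left]
    rintro v ⟨_, h1⟩ ⟨h2, _⟩
    exact absurd h1 (not_lt.2 h2)
-- END cadd

-- BEGIN cmu
private theorem cmu_gen {K : ℝ≥0} {g : E → ℝ≥0} (hK : LipschitzWith K g)
    (h0 : ∀ v, 1 < ‖v‖ → g v = 0) {S : Set E} (hS : MeasurableSet S) {V : ℝ}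
    (hV : volume {v : E | ‖v‖ ≤ 1 ∧ v ∈ S} ≤ ENNReal.ofReal V) :
    ∫⁻ v in S, g v ≤ ENNReal.ofReal (4 * K * V) := by
  have hmB : MeasurableSet {v : E | ‖v‖ ≤ 1 ∧ v ∈ S} :=
    (measurableSet_le measurable_norm measurable_const).inter hS
  have h1 : ∫⁻ v in S, (g v : ℝ≥0∞) ≤
      ∫⁻ v in {v : E | ‖v‖ ≤ 1 ∧ v ∈ S}, ((4 * K : ℝ≥0) : ℝ≥0∞) := by
    rw [← lintegral_indicator hS, ← lintegral_indicator hmB]
    refine lintegral_mono fun w => ?_
    by_cases hw : w ∈ S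
    · by_cases h3 : ‖w‖ ≤ 1
      · rw [indicator_of_mem hw, indicator_of_mem (show w ∈ {w : E | ‖w‖ ≤ 1 ∧ w ∈ S}
          from ⟨h3, hw⟩)]
        exact ENNReal.coe_le_coe.2 (Vor.density_bound hK
          (fun w hw => h0 w (lt_trans (by norm_num) hw)) w)
      · rw [indicator_of_mem hw, h0 w (not_le.1 h3)]
        simp
    · rw [indicator_of_notMem hw]
      exact zero_le
  refine h1.trans ?_
  rw [setLIntegral_const]
  have h2 : (((4 * K : ℝ≥0) : ℝ≥0∞)) = ENNReal.ofReal (4 * K) := by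
    rw [ENNReal.ofReal, Real.toNNReal_of_nonneg (by positivity)]
    congr 1
  rw [h2, ENNReal.ofReal_mul (p := 4 * (K : ℝ)) (by positivity)]
  exact mul_le_mul' le_rfl hV

/-- `g ≤ 4K` (`Vor.density_bound`), `g = 0` outside the unit ball; rows cvol, cbig. See the proof of `Vor.ring_trivial`. -/
theorem cone_mass_le {u : E} (hu : ‖u‖ = 1) {K : ℝ≥0} {g : E → ℝ≥0} (hK : LipschitzWith K g)
    (h0 : ∀ v, 1 < ‖v‖ → g v = 0) :
    (∀ a b : ℝ, 0 ≤ a → a ≤ b → cm u g a b ≤ ENNReal.ofReal (28 * K * (b ^ 2 - a ^ 2))) ∧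
    ∀ τ : ℝ, 0 < τ → ∫⁻ v in {v : E | τ * |(inner ℝ u v : ℝ)| ≤ dl u v}, g v ≤
      ENNReal.ofReal (28 * K / τ) := by
  constructor
  · intro a b ha hab
    have h := cmu_gen hK h0 (measurableSet_cr hu a b) (cone_volume hu ha hab)
    have e : 4 * (K : ℝ) * (7 * (b ^ 2 - a ^ 2)) = 28 * K * (b ^ 2 - a ^ 2) := by ring
    rw [e] at h
    exact h
  · intro τ hτ
    have hm : MeasurableSet {v : E | τ * |(inner ℝ u v : ℝ)| ≤ dl u v} := by
      have h1 : Continuous (dl u) := by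
        unfold dl
        fun_prop
      exact (isClosed_le (by fun_prop) h1).measurableSet
    have h := cmu_gen hK h0 hm (cone_outer hu hτ)
    have e : 4 * (K : ℝ) * (7 / τ) = 28 * K / τ := by ring
    rw [e] at h
    exact h
-- END cmu

-- BEGIN cstp
/-- As `Vor.ring_scale` (row rsc): `g v ≤ g (st u t v) + K (1-t)` for `‖v‖ ≤ 1` (`‖v - st u t v‖ = (1-t) dl u v ≤ 1-t`), so with `V = b² - a²`, `M = cm u g a b`: `M ≤ ∫_cr g (st u t v) + 7K(1-t)V`, `t² M ≤ cm u g (t a) (t b) + 7K(1-t)V`, and `(1-t²) M ≤ 2(1-t) · 28KV`. -/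
theorem cone_step {u : E} (hu : ‖u‖ = 1) {K : ℝ≥0} {g : E → ℝ≥0} (hK : LipschitzWith K g)
    (h0 : ∀ v, 1 < ‖v‖ → g v = 0) {a b t : ℝ} (ha : 0 ≤ a) (hab : a ≤ b) (ht : 0 < t)
    (ht1 : t ≤ 1) :
    cm u g a b ≤ cm u g (t * a) (t * b) + ENNReal.ofReal (63 * K * (1 - t) * (b ^ 2 - a ^ 2)) := by
  have hm : Measurable g := hK.continuous.measurable
  have hV0 : 0 ≤ b ^ 2 - a ^ 2 := by
    have h1 : a ^ 2 ≤ b ^ 2 := pow_le_pow_left₀ ha hab 2
    linarith
  have htriv := (cone_mass_le hu hK h0).1 a b ha hab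
  have hvol := cone_volume hu ha hab
  have hscl := cone_scale hu ht a b g hm
  have ht' : 0 ≤ 1 - t := by linarith
  have hK0 : (0 : ℝ) ≤ K := K.2
  have hst : Measurable (st u t) := by
    unfold st
    fun_prop
  generalize b ^ 2 - a ^ 2 = V at hV0 htriv hvol ⊢
  unfold cm at htriv hscl ⊢
  set P : ℝ≥0∞ := ∫⁻ v in cr u a b, (g v : ℝ≥0∞) with hP
  set Q : ℝ≥0∞ := ∫⁻ v in cr u a b, (g (st u t v) : ℝ≥0∞) with hQ
  have h1 : P ≤ Q + ENNReal.ofReal (K * (1 - t)) * ENNReal.ofReal (7 * V) := by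
    have h2 : P ≤ ∫⁻ v in cr u a b, ((g (st u t v) : ℝ≥0∞) +
        ({v : E | ‖v‖ ≤ 1 ∧ v ∈ cr u a b}).indicator
          (fun _ => ENNReal.ofReal (K * (1 - t))) v) := by
      refine setLIntegral_mono' (measurableSet_cr hu a b) fun v hv => ?_
      by_cases h3 : ‖v‖ ≤ 1
      · rw [indicator_of_mem (show v ∈ {v : E | ‖v‖ ≤ 1 ∧ v ∈ cr u a b} from ⟨h3, hv⟩)]
        have h4 : (g v : ℝ) ≤ g (st u t v) + K * (1 - t) := by
          have h5 := hK.dist_le_mul v (st u t v)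
          have h6 : dist v (st u t v) ≤ 1 - t := by
            have h7 : v - st u t v = (1 - t) • (v - (inner ℝ u v : ℝ) • u) := by
              unfold st
              rw [smul_sub, smul_smul, sub_smul, one_smul]
              abel
            rw [dist_eq_norm, h7, norm_smul, Real.norm_of_nonneg ht']
            have h8 : ‖v - (inner ℝ u v : ℝ) • u‖ ≤ 1 :=
              ((Vor.dl_basic hu).2.2.1 v).trans h3
            nlinarith
          rw [NNReal.dist_eq] at h5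
          have h7 := (abs_le.1 h5).2
          have h8 := mul_le_mul_of_nonneg_left h6 hK0
          linarith
        have h5 : ((g v : ℝ≥0) : ℝ≥0∞) = ENNReal.ofReal (g v : ℝ) :=
          (ENNReal.ofReal_coe_nnreal).symm
        have h6 : ((g (st u t v) : ℝ≥0) : ℝ≥0∞) = ENNReal.ofReal (g (st u t v) : ℝ) :=
          (ENNReal.ofReal_coe_nnreal).symm
        rw [h5, h6, ← ENNReal.ofReal_add (NNReal.coe_nonneg _)
          (show 0 ≤ (K : ℝ) * (1 - t) by positivity)]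
        exact ENNReal.ofReal_le_ofReal h4
      · rw [h0 v (not_le.1 h3)]
        exact zero_le
    refine h2.trans ?_
    have hmq : Measurable fun v : E => ((g (st u t v) : ℝ≥0) : ℝ≥0∞) :=
      (hm.comp hst).coe_nnreal_ennreal
    rw [lintegral_add_left hmq]
    refine add_le_add le_rfl ?_
    refine (lintegral_indicator_const_le _ _).trans ?_
    refine mul_le_mul_of_nonneg_left ?_ zero_le
    exact (Measure.restrict_apply_le _ _).trans hvol
  have h2 : ENNReal.ofReal (t ^ 2) * P ≤ (∫⁻ v in cr u (t * a) (t * b), (g v : ℝ≥0∞)) +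
      ENNReal.ofReal (K * (1 - t)) * ENNReal.ofReal (7 * V) := by
    rw [hscl]
    calc ENNReal.ofReal (t ^ 2) * P
        ≤ ENNReal.ofReal (t ^ 2) * (Q + ENNReal.ofReal (K * (1 - t)) * ENNReal.ofReal (7 * V)) :=
          mul_le_mul_of_nonneg_left h1 zero_le
      _ = ENNReal.ofReal (t ^ 2) * Q +
          ENNReal.ofReal (t ^ 2) * (ENNReal.ofReal (K * (1 - t)) * ENNReal.ofReal (7 * V)) :=
          mul_add _ _ _
      _ ≤ ENNReal.ofReal (t ^ 2) * Q +
          1 * (ENNReal.ofReal (K * (1 - t)) * ENNReal.ofReal (7 * V)) := by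
          refine add_le_add le_rfl (mul_le_mul_of_nonneg_right ?_ zero_le)
          rw [← ENNReal.ofReal_one]
          exact ENNReal.ofReal_le_ofReal (pow_le_one₀ ht.le ht1)
      _ = _ := by rw [one_mul]
  have ht3 : t ^ 2 ≤ 1 := pow_le_one₀ ht.le ht1
  have h3 : P = ENNReal.ofReal (t ^ 2) * P + ENNReal.ofReal (1 - t ^ 2) * P := by
    rw [← add_mul, ← ENNReal.ofReal_add (by positivity) (by linarith)]
    rw [show t ^ 2 + (1 - t ^ 2) = 1 by ring, ENNReal.ofReal_one, one_mul]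
  have h4 : ENNReal.ofReal (1 - t ^ 2) * P ≤
      ENNReal.ofReal (2 * (1 - t)) * ENNReal.ofReal (28 * K * V) := by
    refine mul_le_mul' (ENNReal.ofReal_le_ofReal ?_) htriv
    nlinarith [sq_nonneg (1 - t)]
  have h5 : ENNReal.ofReal (63 * K * (1 - t) * V) =
      ENNReal.ofReal (K * (1 - t)) * ENNReal.ofReal (7 * V) +
        ENNReal.ofReal (2 * (1 - t)) * ENNReal.ofReal (28 * K * V) := by
    rw [← ENNReal.ofReal_mul (by positivity), ← ENNReal.ofReal_mul (by positivity),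
      ← ENNReal.ofReal_add (by positivity) (by positivity)]
    congr 1
    ring
  calc P = ENNReal.ofReal (t ^ 2) * P + ENNReal.ofReal (1 - t ^ 2) * P := h3
    _ ≤ ((∫⁻ v in cr u (t * a) (t * b), (g v : ℝ≥0∞)) +
        ENNReal.ofReal (K * (1 - t)) * ENNReal.ofReal (7 * V)) +
        ENNReal.ofReal (2 * (1 - t)) * ENNReal.ofReal (28 * K * V) := add_le_add h2 h4
    _ = _ := by rw [h5, add_assoc]
-- END cstp

-- BEGIN c12
private theorem c12_tel {u : E} (hu : ‖u‖ = 1) (g : E → ℝ≥0) {t b : ℝ} (ht : 0 < t) (ht1 : t ≤ 1) (hb : 0 ≤ b) (n : ℕ) :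
    (∑ k ∈ Finset.range n, cm u g (t ^ (k + 1) * b) (t ^ k * b)) + cm u g 0 (t ^ n * b) = cm u g 0 b := by
  induction n with
  | zero => simp
  | succ n ih =>
    rw [Finset.sum_range_succ, ← ih, add_assoc]
    congr 1
    rw [cone_add hu g (x := 0) (y := t ^ (n + 1) * b) (z := t ^ n * b) (by positivity)
      (mul_le_mul_of_nonneg_right (pow_le_pow_of_le_one ht.le ht1 (Nat.le_succ n)) hb)]
    rw [add_comm]

private theorem c12_pow {t : ℝ} (ht : 0 < t) (ht1 : t ≤ 1) (k : ℕ) : 1 - t ^ k ≤ k * (1 - t) := by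
  induction k with
  | zero => simp
  | succ k ih =>
    rw [pow_succ]
    push_cast
    have h1 : t ^ k ≤ 1 := pow_le_one₀ ht.le ht1
    nlinarith

/-- `a = 0`: row cmu. `a > 0`: `t = a / b`; row cstp with `t^k`, `k = 0..11`: `cm u g a b ≤ cm u g (t^(k+1) b) (t^k b) + 63 K k (1-t) (b²-a²)` (`1 - t^k ≤ k (1-t)`); sum over `k`, row cadd: `12 cm u g a b ≤ cm u g 0 b + 63·66 K (1-t)(b²-a²)`, `(1-t)(b²-a²) ≤ 2 (b-a)²`, `63·66·2/12 ≤ 700`. -/
theorem cone_twelve {u : E} (hu : ‖u‖ = 1) {K : ℝ≥0} {g : E → ℝ≥0} (hK : LipschitzWith K g)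
    (h0 : ∀ v, 1 < ‖v‖ → g v = 0) {a b : ℝ} (ha : 0 ≤ a) (hab : a ≤ b) :
    cm u g a b ≤ ENNReal.ofReal (1 / 12) * cm u g 0 b + ENNReal.ofReal (700 * K * (b - a) ^ 2) := by
  have hK0 : (0 : ℝ) ≤ K := K.2
  rcases ha.eq_or_lt with h | h
  · subst h
    refine ((cone_mass_le hu hK h0).1 0 b le_rfl hab).trans (le_add_left (ENNReal.ofReal_le_ofReal ?_))
    have h1 : 0 ≤ (K : ℝ) * b ^ 2 := by positivity
    nlinarith
  · have hb : 0 < b := h.trans_le hab
    obtain ⟨t, htd⟩ : ∃ t : ℝ, t = a / b := ⟨_, rfl⟩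
    have ht : 0 < t := by rw [htd]; positivity
    have ht1 : t ≤ 1 := by rw [htd, div_le_one hb]; exact hab
    have hta : t * b = a := by rw [htd]; field_simp
    have hVd : 0 ≤ b ^ 2 - a ^ 2 := by nlinarith
    have hstep : ∀ k ∈ Finset.range 12, cm u g a b ≤ cm u g (t ^ (k + 1) * b) (t ^ k * b) +
        ENNReal.ofReal (63 * K * (k * (1 - t)) * (b ^ 2 - a ^ 2)) := by
      intro k _
      have h1 := cone_step hu hK h0 ha hab (pow_pos ht k) (pow_le_one₀ ht.le ht1)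
      have h2 : t ^ k * a = t ^ (k + 1) * b := by rw [← hta]; ring
      rw [h2] at h1
      refine h1.trans (add_le_add le_rfl (ENNReal.ofReal_le_ofReal ?_))
      have h3 := c12_pow ht ht1 k
      exact mul_le_mul_of_nonneg_right (mul_le_mul_of_nonneg_left h3 (by positivity)) hVd
    have hsum := Finset.sum_le_sum hstep
    rw [Finset.sum_const, Finset.card_range, nsmul_eq_mul, Finset.sum_add_distrib, ← ENNReal.ofReal_sum_of_nonneg] at hsum
    · have htel : ∑ k ∈ Finset.range 12, cm u g (t ^ (k + 1) * b) (t ^ k * b) ≤ cm u g 0 b := by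
        rw [← c12_tel hu g ht ht1 hb.le 12]
        exact le_self_add
      have hval : ∑ k ∈ Finset.range 12, 63 * (K : ℝ) * (k * (1 - t)) * (b ^ 2 - a ^ 2) = 4158 * K * ((1 - t) * (b ^ 2 - a ^ 2)) := by
        simp only [Finset.sum_range_succ, Finset.sum_range_zero]
        push_cast
        ring
      have hle : (1 - t) * (b ^ 2 - a ^ 2) ≤ 2 * (b - a) ^ 2 := by
        have h1 : (1 - t) * b = b - a := by rw [sub_mul, one_mul, hta]
        have h2 : (1 - t) * (b ^ 2 - a ^ 2) = (1 - t) * (b - a) * (b + a) := by ring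
        have h3 : 0 ≤ (1 - t) * (b - a) := mul_nonneg (by linarith) (by linarith)
        calc (1 - t) * (b ^ 2 - a ^ 2) = (1 - t) * (b - a) * (b + a) := h2
          _ ≤ (1 - t) * (b - a) * (2 * b) := mul_le_mul_of_nonneg_left (by linarith) h3
          _ = 2 * (((1 - t) * b) * (b - a)) := by ring
          _ = 2 * (b - a) ^ 2 := by rw [h1]; ring
      have h12 : ((12 : ℕ) : ℝ≥0∞) * cm u g a b ≤ cm u g 0 b + ENNReal.ofReal (12 * (700 * K * (b - a) ^ 2)) := by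
        refine hsum.trans (add_le_add htel (ENNReal.ofReal_le_ofReal ?_))
        rw [hval]
        have h1 : 0 ≤ (K : ℝ) * (b - a) ^ 2 := by positivity
        have h2 : (K : ℝ) * ((1 - t) * (b ^ 2 - a ^ 2)) ≤ K * (2 * (b - a) ^ 2) := mul_le_mul_of_nonneg_left hle hK0
        nlinarith
      have hone : ENNReal.ofReal (1 / 12) * ((12 : ℕ) : ℝ≥0∞) = 1 := by
        have h1 : ((12 : ℕ) : ℝ≥0∞) = ENNReal.ofReal 12 := by
          rw [← ENNReal.ofReal_natCast]
          norm_num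
        rw [h1, ← ENNReal.ofReal_mul (by norm_num)]
        norm_num
      calc cm u g a b = ENNReal.ofReal (1 / 12) * (((12 : ℕ) : ℝ≥0∞) * cm u g a b) := by
            rw [← mul_assoc, hone, one_mul]
        _ ≤ ENNReal.ofReal (1 / 12) * (cm u g 0 b + ENNReal.ofReal (12 * (700 * K * (b - a) ^ 2))) := mul_le_mul' le_rfl h12
        _ = ENNReal.ofReal (1 / 12) * cm u g 0 b + ENNReal.ofReal (700 * K * (b - a) ^ 2) := by
            rw [mul_add, ← ENNReal.ofReal_mul (by norm_num)]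
            congr 2
            ring
    · intro k _
      exact mul_nonneg (mul_nonneg (by positivity) (mul_nonneg (by positivity) (by linarith))) hVd
-- END c12

-- BEGIN crel
/-- `Vrd.dv_symm`: `‖v‖ dv v w = ‖w‖ dl u v`, `u = ‖w‖⁻¹ w`; `‖v‖² = ⟪u,v⟫² + (dl u v)²`; so `dv v w < r` iff `‖w‖² B² < r² (A² + B²)` iff `(‖w‖² - r²) B² < r² A²` (`A = |⟪u,v⟫|`, `B = dl u v`). -/
theorem dv_lt_iff {w : E} (hw : w ≠ 0) {v : E} (hv : v ≠ 0) {r : ℝ} (hr : 0 ≤ r) (hrw : r < ‖w‖) :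
    dv v w < r ↔ dl (‖w‖⁻¹ • w) v < tn ‖w‖ r * |(inner ℝ (‖w‖⁻¹ • w) v : ℝ)| := by
  have hw0 : 0 < ‖w‖ := norm_pos_iff.2 hw
  have hv0 : 0 < ‖v‖ := norm_pos_iff.2 hv
  set u : E := ‖w‖⁻¹ • w with hu
  have hu1 : ‖u‖ = 1 := by
    rw [hu, norm_smul, norm_inv, norm_norm, inv_mul_cancel₀ hw0.ne']
  have hB : 0 ≤ dl u v := norm_nonneg _
  have hA : 0 ≤ |(inner ℝ u v : ℝ)| := abs_nonneg _
  have h1 : ‖v‖ * dv v w = ‖w‖ * dl u v := Vrd.dv_symm v w
  have h2 : ‖v‖ ^ 2 = |(inner ℝ u v : ℝ)| ^ 2 + (dl u v) ^ 2 := by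
    have h3 : (dl u v) ^ 2 = ‖v‖ ^ 2 - (inner ℝ u v) ^ 2 := by
      unfold dl
      rw [norm_sub_sq_real, inner_smul_right, norm_smul, hu1, mul_one, Real.norm_eq_abs, sq_abs,
        real_inner_comm v u]
      ring
    rw [h3, sq_abs]
    ring
  have hq : 0 < ‖w‖ ^ 2 - r ^ 2 := by nlinarith
  set s : ℝ := Real.sqrt (‖w‖ ^ 2 - r ^ 2) with hs
  have hs0 : 0 < s := Real.sqrt_pos.2 hq
  have hs2 : s ^ 2 = ‖w‖ ^ 2 - r ^ 2 := Real.sq_sqrt hq.le
  have e1 : dv v w < r ↔ ‖w‖ * dl u v < r * ‖v‖ := by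
    rw [← h1, mul_comm ‖v‖]
    exact (mul_lt_mul_iff_left₀ hv0).symm
  have e2 : ‖w‖ * dl u v < r * ‖v‖ ↔ (‖w‖ * dl u v) ^ 2 < (r * ‖v‖) ^ 2 :=
    (sq_lt_sq₀ (mul_nonneg hw0.le hB) (mul_nonneg hr hv0.le)).symm
  have e3 : dl u v < tn ‖w‖ r * |(inner ℝ u v : ℝ)| ↔ s * dl u v < r * |(inner ℝ u v : ℝ)| := by
    unfold tn
    rw [← hs, div_mul_eq_mul_div, lt_div_iff₀ hs0, mul_comm s]
  have e4 : s * dl u v < r * |(inner ℝ u v : ℝ)| ↔
      (s * dl u v) ^ 2 < (r * |(inner ℝ u v : ℝ)|) ^ 2 :=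
    (sq_lt_sq₀ (mul_nonneg hs0.le hB) (mul_nonneg hr hA)).symm
  rw [e1, e2, e3, e4, mul_pow, mul_pow, mul_pow, mul_pow, h2, hs2]
  constructor
  · intro h
    nlinarith
  · intro h
    nlinarith
-- END crel

-- BEGIN cdv
/-- From row crel, up to the null set `{0}` (`setLIntegral_congr`, `measure_singleton`, `ae_eq_set` or `Measure.restrict_congr_set`). -/
theorem mass_eq {w : E} (hw : w ≠ 0) (g : E → ℝ≥0) {r s : ℝ} (hr : 0 ≤ r) (hrs : r ≤ s)
    (hs : s < ‖w‖) :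
    (∫⁻ v in {v : E | r ≤ dv v w ∧ dv v w < s}, g v = cm (‖w‖⁻¹ • w) g (tn ‖w‖ r) (tn ‖w‖ s)) ∧
    (∫⁻ v in {v : E | dv v w < s}, g v = cm (‖w‖⁻¹ • w) g 0 (tn ‖w‖ s)) ∧
    (∫⁻ v in {v : E | r ≤ dv v w}, g v =
      ∫⁻ v in {v : E | tn ‖w‖ r * |(inner ℝ (‖w‖⁻¹ • w) v : ℝ)| ≤ dl (‖w‖⁻¹ • w) v}, g v) := by
  have hae : ∀ᵐ v : E, v ≠ 0 := by
    rw [ae_iff]
    have e : {v : E | ¬ v ≠ 0} = {0} := by
      ext v
      simp
    rw [e]
    exact measure_singleton 0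
  have h0 : ∀ v : E, 0 ≤ dl (‖w‖⁻¹ • w) v := fun v => by
    unfold dl
    exact norm_nonneg _
  refine ⟨?_, ?_, ?_⟩
  · refine setLIntegral_congr (Filter.eventuallyEq_set.2 ?_)
    filter_upwards [hae] with v hv
    simp only [cr, Set.mem_ofPred_eq]
    rw [← not_lt, ← not_lt, dv_lt_iff hw hv hr (hrs.trans_lt hs),
      dv_lt_iff hw hv (hr.trans hrs) hs]
  · refine setLIntegral_congr (Filter.eventuallyEq_set.2 ?_)
    filter_upwards [hae] with v hv
    simp only [cr, Set.mem_ofPred_eq]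
    rw [dv_lt_iff hw hv (hr.trans hrs) hs, zero_mul]
    exact ⟨fun h => ⟨h0 v, h⟩, fun h => h.2⟩
  · refine setLIntegral_congr (Filter.eventuallyEq_set.2 ?_)
    filter_upwards [hae] with v hv
    show r ≤ dv v w ↔ tn ‖w‖ r * |(inner ℝ (‖w‖⁻¹ • w) v : ℝ)| ≤ dl (‖w‖⁻¹ • w) v
    rw [← not_lt, ← not_lt, dv_lt_iff hw hv hr (hrs.trans_lt hs)]
-- END cdv

-- BEGIN tinc
/-- `q = √(R²-r²) ≥ q' = √(R²-s²) ≥ κ R`: `s/q' - r/q = (s-r)/q' + r (q-q')/(q q')`, `q - q' = (s²-r²)/(q+q') ≤ (s-r)/κ`. -/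
theorem tn_inc {R r s κ : ℝ} (hR : 1 / 2 ≤ R) (hr : 0 ≤ r) (hrs : r ≤ s) (hκ : 0 < κ)
    (h : κ ^ 2 * R ^ 2 ≤ R ^ 2 - s ^ 2) :
    0 ≤ tn R r ∧ tn R r ≤ tn R s ∧ tn R s - tn R r ≤ (s - r) * (2 / κ + 2 / κ ^ 3) := by
  have hR0 : 0 < R := by linarith
  have hs : 0 ≤ s := hr.trans hrs
  have hrs2 : r ^ 2 ≤ s ^ 2 := pow_le_pow_left₀ hr hrs 2
  have hκR : 0 < κ * R := mul_pos hκ hR0
  unfold tn
  set q : ℝ := Real.sqrt (R ^ 2 - r ^ 2) with hq
  set q' : ℝ := Real.sqrt (R ^ 2 - s ^ 2) with hq'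
  have hpos : 0 < R ^ 2 - s ^ 2 := lt_of_lt_of_le (by positivity) h
  have hpos' : 0 < R ^ 2 - r ^ 2 := by linarith
  have hq2 : q ^ 2 = R ^ 2 - r ^ 2 := Real.sq_sqrt hpos'.le
  have hq2' : q' ^ 2 = R ^ 2 - s ^ 2 := Real.sq_sqrt hpos.le
  have hq0 : 0 < q := Real.sqrt_pos.2 hpos'
  have hq0' : 0 < q' := Real.sqrt_pos.2 hpos
  have hqq : q' ≤ q := Real.sqrt_le_sqrt (by linarith)
  have hκq' : κ * R ≤ q' := by
    refine Real.le_sqrt_of_sq_le ?_
    rw [mul_pow]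
    exact h
  have hκq : κ * R ≤ q := hκq'.trans hqq
  have hsR : s ≤ R := by
    have : s ^ 2 ≤ R ^ 2 := by nlinarith
    exact le_of_sq_le_sq this hR0.le
  have hrR : r ≤ R := hrs.trans hsR
  refine ⟨div_nonneg hr hq0.le, div_le_div₀ hs hrs hq0' hqq, ?_⟩
  have hdiff : s / q' - r / q = (s - r) / q' + r * (s - r) * (s + r) / ((q + q') * q * q') := by
    have e : (q - q') * (q + q') = (s - r) * (s + r) := by
      have : (q - q') * (q + q') = q ^ 2 - q' ^ 2 := by ring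
      rw [this, hq2, hq2']
      ring
    have h1 : r * (s - r) * (s + r) / ((q + q') * q * q') = r * (q - q') / (q * q') := by
      rw [div_eq_div_iff (by positivity) (by positivity)]
      linear_combination (-(r * (q * q'))) * e
    rw [h1]
    field_simp
    ring
  have hsr : 0 ≤ s - r := sub_nonneg.2 hrs
  have b1 : (s - r) / q' ≤ (s - r) * (2 / κ) := by
    rw [div_eq_mul_inv]
    refine mul_le_mul_of_nonneg_left ?_ hsr
    rw [inv_le_comm₀ hq0' (by positivity), inv_div]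
    nlinarith
  have b2 : r * (s - r) * (s + r) / ((q + q') * q * q') ≤ (s - r) * (2 / κ ^ 3) := by
    have hden : 2 * (κ * R) ^ 3 ≤ (q + q') * q * q' := by
      have c1 : 2 * (κ * R) ≤ q + q' := by linarith
      have c2 : 2 * (κ * R) * (κ * R) ≤ (q + q') * q :=
        mul_le_mul c1 hκq hκR.le (by positivity)
      calc 2 * (κ * R) ^ 3 = 2 * (κ * R) * (κ * R) * (κ * R) := by ring
        _ ≤ (q + q') * q * q' := mul_le_mul c2 hκq' hκR.le (by positivity)
    have hnum : r * (s - r) * (s + r) ≤ (s - r) * (2 * R ^ 2) := by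
      have c3 : r * (s + r) ≤ R * (2 * R) := mul_le_mul hrR (by linarith) (by positivity) hR0.le
      calc r * (s - r) * (s + r) = (s - r) * (r * (s + r)) := by ring
        _ ≤ (s - r) * (R * (2 * R)) := mul_le_mul_of_nonneg_left c3 hsr
        _ = (s - r) * (2 * R ^ 2) := by ring
    calc r * (s - r) * (s + r) / ((q + q') * q * q') ≤
          (s - r) * (2 * R ^ 2) / (2 * (κ * R) ^ 3) :=
          div_le_div₀ (by positivity) hnum (by positivity) hden
      _ = (s - r) * (1 / (κ ^ 3 * R)) := by field_simp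
      _ ≤ (s - r) * (2 / κ ^ 3) := by
          refine mul_le_mul_of_nonneg_left ?_ hsr
          rw [div_le_div_iff₀ (by positivity) (by positivity)]
          have : 0 < κ ^ 3 := by positivity
          nlinarith
  have b3 := add_le_add b1 b2
  rw [← mul_add] at b3
  rw [hdiff]
  exact b3
-- END tinc

-- BEGIN frl
theorem frl_key {k R rs r δ : ℝ} (hk0 : 0 < k) (hk1 : k ≤ 1) (hR : 1 / 2 ≤ R) (hr : 0 ≤ r)
    (hδ : 0 < δ) (hδk : δ ≤ k / 8) (hrs2 : rs ^ 2 = R ^ 2 - 2 * k * R ^ 2)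
    (hrsR : rs ≤ R) (hcase : r ≤ rs) : k * R ^ 2 ≤ R ^ 2 - (r + δ) ^ 2 := by
  have a1 : (r + δ) ^ 2 ≤ (rs + δ) ^ 2 := pow_le_pow_left₀ (by linarith) (by linarith) 2
  have a2 : rs * δ ≤ R * δ := mul_le_mul_of_nonneg_right hrsR hδ.le
  have a3 : R * δ ≤ R * (k / 8) := mul_le_mul_of_nonneg_left hδk (by linarith)
  have a4 : R * k ≤ 2 * (k * R ^ 2) := by
    have : 0 ≤ k * R * (2 * R - 1) := mul_nonneg (by positivity) (by linarith)
    have e : 2 * (k * R ^ 2) - R * k = k * R * (2 * R - 1) := by ring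
    linarith
  have b1 : δ ^ 2 ≤ (k / 8) ^ 2 := pow_le_pow_left₀ hδ.le hδk 2
  have b2 : (k / 8) ^ 2 ≤ k / 64 := by
    have : k * k ≤ k * 1 := mul_le_mul_of_nonneg_left hk1 hk0.le
    have e : (k / 8) ^ 2 = k * k / 64 := by ring
    linarith
  have b3 : 1 / 4 ≤ R ^ 2 := by
    have : (1 / 2 : ℝ) ^ 2 ≤ R ^ 2 := pow_le_pow_left₀ (by norm_num) hR 2
    norm_num at this
    linarith
  have b4 : k * (1 / 4) ≤ k * R ^ 2 := mul_le_mul_of_nonneg_left b3 hk0.le
  have e1 : (rs + δ) ^ 2 = rs ^ 2 + 2 * (rs * δ) + δ ^ 2 := by ring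
  linarith

/-- The ring inequality for the distance from a fixed point to a random line through the origin. -/
theorem far_ring (K : ℝ≥0) : ∃ c : ℝ, 0 < c ∧ ∀ g : E → ℝ≥0, LipschitzWith K g →
    (∀ v, 1 < ‖v‖ → g v = 0) → ∫⁻ v, g v = 1 → ∀ w : E, 1 / 2 ≤ ‖w‖ → ∀ δ t r : ℝ, 0 < δ → δ ≤ c →
    δ ^ 2 ≤ c * t → 0 ≤ r →
    ∫⁻ v in {v : E | r ≤ dv v w ∧ dv v w < r + δ}, g v ≤
      ENNReal.ofReal (1 / 12) * (∫⁻ v in {v : E | dv v w < r + δ}, g v) + ENNReal.ofReal (18 * t) := by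
  have hK0 : (0 : ℝ) ≤ K := K.2
  set H : ℝ := 672 * K + 1 with hH
  have hH1 : 1 ≤ H := by linarith
  have hH0 : 0 < H := by linarith
  set S : ℝ := Real.sqrt (1 + H ^ 2) with hS
  have hS2 : S ^ 2 = 1 + H ^ 2 := Real.sq_sqrt (by positivity)
  have hS0 : 0 < S := Real.sqrt_pos.2 (by positivity)
  set κ : ℝ := 1 / Real.sqrt (2 * (1 + H ^ 2)) with hκ
  have hq0 : 0 < Real.sqrt (2 * (1 + H ^ 2)) := Real.sqrt_pos.2 (by positivity)
  have hκ0 : 0 < κ := by positivity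
  have hκ2 : κ ^ 2 * (2 * (1 + H ^ 2)) = 1 := by
    rw [hκ, div_pow, Real.sq_sqrt (by positivity)]
    field_simp
  have hκ1 : κ ^ 2 ≤ 1 := by
    have h3 : κ ^ 2 * 1 ≤ κ ^ 2 * (2 * (1 + H ^ 2)) :=
      mul_le_mul_of_nonneg_left (by have := sq_nonneg H; linarith) (sq_nonneg κ)
    linarith
  set L : ℝ := 2 / κ + 2 / κ ^ 3 with hL
  have hL0 : 0 < L := by positivity
  refine ⟨min (κ ^ 2 / 8) (18 / (700 * K * L ^ 2 + 1)), by positivity, ?_⟩
  intro g hK h0 h1 w hw δ t r hδ hδc hδt hr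
  set R : ℝ := ‖w‖ with hR
  have hR0 : 0 < R := by linarith
  have hw0 : w ≠ 0 := by
    intro h
    rw [hR, h, norm_zero] at hR0
    exact lt_irrefl _ hR0
  have hu : ‖R⁻¹ • w‖ = 1 := by
    rw [norm_smul, norm_inv, Real.norm_of_nonneg hR0.le, ← hR, inv_mul_cancel₀ hR0.ne']
  have hc1 : δ ≤ κ ^ 2 / 8 := hδc.trans (min_le_left _ _)
  have ht0 : 0 ≤ t := by
    have : 0 < min (κ ^ 2 / 8) (18 / (700 * K * L ^ 2 + 1)) := by positivity
    by_contra h
    push Not at h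
    have h2 := mul_neg_of_pos_of_neg this h
    have h3 := sq_nonneg δ
    linarith
  set rs : ℝ := R * H / S with hrs
  have hrs0 : 0 ≤ rs := by positivity
  have hrs2 : rs ^ 2 = R ^ 2 - 2 * κ ^ 2 * R ^ 2 := by
    rw [hrs, div_pow, mul_pow, hS2]
    have h2 : (0 : ℝ) < 1 + H ^ 2 := by positivity
    rw [div_eq_iff h2.ne']
    have e : 2 * κ ^ 2 * R ^ 2 * (1 + H ^ 2) = (κ ^ 2 * (2 * (1 + H ^ 2))) * R ^ 2 := by ring
    have e2 : (R ^ 2 - 2 * κ ^ 2 * R ^ 2) * (1 + H ^ 2) =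
        R ^ 2 * (1 + H ^ 2) - 2 * κ ^ 2 * R ^ 2 * (1 + H ^ 2) := by ring
    rw [e2, e, hκ2]
    ring
  have hrsR : rs < R := by
    have h3 : 0 < κ ^ 2 * R ^ 2 := by positivity
    exact lt_of_pow_lt_pow_left₀ 2 hR0.le (by rw [hrs2]; linarith)
  rcases lt_or_ge r rs with hcase | hcase
  · -- regular case
    have hkey : κ ^ 2 * R ^ 2 ≤ R ^ 2 - (r + δ) ^ 2 :=
      frl_key (by positivity) hκ1 hw hr hδ hc1 (by rw [hrs2]) hrsR.le hcase.le
    have hsR : r + δ < R := by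
      have h3 : 0 < κ ^ 2 * R ^ 2 := by positivity
      exact lt_of_pow_lt_pow_left₀ 2 hR0.le (by linarith)
    obtain ⟨e1, e2, -⟩ := mass_eq hw0 g hr (by linarith : r ≤ r + δ) hsR
    obtain ⟨i0, i1, i2⟩ := tn_inc (R := R) hw hr (by linarith : r ≤ r + δ) hκ0 hkey
    rw [e1, e2]
    refine (cone_twelve hu hK h0 i0 i1).trans (add_le_add le_rfl (ENNReal.ofReal_le_ofReal ?_))
    have j1 : (tn ‖w‖ (r + δ) - tn ‖w‖ r) ^ 2 ≤ (δ * L) ^ 2 := by
      apply pow_le_pow_left₀ (by rw [← hR]; linarith)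
      rw [← hR]
      have : r + δ - r = δ := by ring
      rw [this] at i2
      exact i2
    have j2 : 700 * (K : ℝ) * (δ * L) ^ 2 ≤ 18 * t := by
      have k1 : δ ^ 2 ≤ 18 / (700 * K * L ^ 2 + 1) * t :=
        hδt.trans (mul_le_mul_of_nonneg_right (min_le_right _ _) ht0)
      have k2 : (0 : ℝ) < 700 * K * L ^ 2 + 1 := by positivity
      have k3 : δ ^ 2 * (700 * K * L ^ 2 + 1) ≤ 18 * t := by
        rw [div_mul_eq_mul_div, le_div_iff₀ k2] at k1
        exact k1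
      have k4 : 700 * (K : ℝ) * (δ * L) ^ 2 + δ ^ 2 = δ ^ 2 * (700 * K * L ^ 2 + 1) := by ring
      have k5 := sq_nonneg δ
      linarith
    exact (mul_le_mul_of_nonneg_left j1 (by positivity)).trans j2
  · -- saturated case
    have hms : MeasurableSet {v : E | dv v w < rs} :=
      measurableSet_lt (Pool.Agent.Vrd.dv_measurable w) measurable_const
    have htn : tn R rs = H := by
      unfold tn
      have : R ^ 2 - rs ^ 2 = (R / S) ^ 2 := by
        have h2 : (0 : ℝ) < 1 + H ^ 2 := by positivity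
        have h3 : (R / S) ^ 2 = R ^ 2 / (1 + H ^ 2) := by rw [div_pow, hS2]
        rw [hrs2, h3, eq_div_iff h2.ne']
        have e : (R ^ 2 - (R ^ 2 - 2 * κ ^ 2 * R ^ 2)) * (1 + H ^ 2) =
            (κ ^ 2 * (2 * (1 + H ^ 2))) * R ^ 2 := by ring
        rw [e, hκ2, one_mul]
      rw [this, Real.sqrt_sq (by positivity), hrs]
      field_simp
    have hbig : ∫⁻ v in {v : E | rs ≤ dv v w}, (g v : ℝ≥0∞) ≤ ENNReal.ofReal (1 / 24) := by
      obtain ⟨-, -, e3⟩ := mass_eq hw0 g hrs0 le_rfl hrsR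
      rw [e3, ← hR, htn]
      refine ((cone_mass_le hu hK h0).2 H hH0).trans (ENNReal.ofReal_le_ofReal ?_)
      rw [div_le_div_iff₀ hH0 (by norm_num)]
      linarith
    have hF : ENNReal.ofReal (1 / 2) ≤ ∫⁻ v in {v : E | dv v w < r + δ}, (g v : ℝ≥0∞) := by
      have a1 : ∫⁻ v in {v : E | dv v w < rs}, (g v : ℝ≥0∞) ≤
          ∫⁻ v in {v : E | dv v w < r + δ}, (g v : ℝ≥0∞) := by
        apply lintegral_mono_set
        intro v hv
        have : dv v w < rs := hv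
        show dv v w < r + δ
        linarith
      refine le_trans ?_ a1
      have a2 := lintegral_add_compl (μ := volume) (fun v => (g v : ℝ≥0∞)) hms
      have a3 : {v : E | dv v w < rs}ᶜ = {v : E | rs ≤ dv v w} := by
        ext v
        simp
      rw [a3, h1] at a2
      by_contra hlt
      push Not at hlt
      have a4 : (∫⁻ v in {v : E | dv v w < rs}, (g v : ℝ≥0∞)) +
          ∫⁻ v in {v : E | rs ≤ dv v w}, (g v : ℝ≥0∞) < 1 := by
        calc _ < ENNReal.ofReal (1 / 2) + ENNReal.ofReal (1 / 24) :=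
              ENNReal.add_lt_add_of_lt_of_le (ne_top_of_le_ne_top ENNReal.ofReal_ne_top hbig) hlt hbig
          _ = ENNReal.ofReal (1 / 2 + 1 / 24) := (ENNReal.ofReal_add (by norm_num) (by norm_num)).symm
          _ ≤ ENNReal.ofReal 1 := ENNReal.ofReal_le_ofReal (by norm_num)
          _ = 1 := ENNReal.ofReal_one
      exact absurd a2 a4.ne
    have hL1 : ∫⁻ v in {v : E | r ≤ dv v w ∧ dv v w < r + δ}, (g v : ℝ≥0∞) ≤
        ∫⁻ v in {v : E | rs ≤ dv v w}, (g v : ℝ≥0∞) := by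
      apply lintegral_mono_set
      intro v hv
      have : r ≤ dv v w := hv.1
      show rs ≤ dv v w
      linarith
    calc _ ≤ ENNReal.ofReal (1 / 24) := hL1.trans hbig
      _ = ENNReal.ofReal (1 / 12) * ENNReal.ofReal (1 / 2) := by
          rw [← ENNReal.ofReal_mul (by norm_num)]
          norm_num
      _ ≤ ENNReal.ofReal (1 / 12) * (∫⁻ v in {v : E | dv v w < r + δ}, (g v : ℝ≥0∞)) := by gcongr
      _ ≤ _ := le_self_add
-- END frl

end Pool.Agent.Vws
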