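import Pool.Agent.Vws.Cone
import Pool.Agent.Vws.Gen
import Pool.Agent.Vor.Faces
import Pool.Agent.Vrd.Chart

/-!
The covering of the whole space and the two expectations
-/

set_option autoImplicit false

namespace Pool.Agent.Vws

open MeasureTheory Set
open scoped ENNReal NNReal
open Pool.Agent.Vor (E dl line wt Near Faces)
open Pool.Agent.Vrd (dv lev grid farGrid nearPsi farVec farPsi sgn IsChart)

-- BEGIN cfb
/-- As `Vor.faces_le` (row fle) and `Vrd.chart_cell` (row cce): box `α c = max (γ c) (z0 c - δ/4)`, `β c = z0 c + δ/4`; for `z` in it `|dv (v m) (ψ m z) - dv (v m) (ψ m z0)| < δ` (`hc.lip`, `Vrd.dv_basic`), so a nearest line `m` of `χ z` (`hc.dist`, `hc.pos`) has `D m < D j + 2δ` for all `j`, `D m = dv (v m) (ψ m z0)`: `Vrd.faces_chart` with the polynomials of `Vrd.exists_poly_dv`, then `Vor.count_faces`. -/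
theorem chart_box {n : ℕ} (hn : 0 < n) {v a : Fin n → E} {χ : (Fin 3 → ℝ) → E}
    {ψ : Fin n → (Fin 3 → ℝ) → E} {sc : (Fin 3 → ℝ) → ℝ} {γ : Fin 3 → ℝ}
    (hc : IsChart v a χ ψ sc γ) {δ : ℝ} (hδ : 0 < δ) (z0 : Fin 3 → ℝ) :
    (({f | f ∈ Faces v a ∧ ∃ z, (∀ c, γ c < z c) ∧ ‖z - z0‖ ≤ δ / 8 ∧ χ z ∈ f}.encard : ℕ∞) :
      ℝ≥0∞) ≤ 10000000 * ∑' j : ℕ, ∑ i0, ∏ m, wt δ j (m = i0) (dv (v m) (ψ m z0)) := by
  classical
  -- the distances are Lipschitz functions
  have hlip : ∀ m z z', dv (v m) (ψ m z) ≤ dv (v m) (ψ m z') + 3 * ‖z - z'‖ := fun m z z' =>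
    ((Vrd.dv_basic (v m)).2.2.2 _ _).trans (by linarith [hc.lip m z z'])
  -- the nearest lines minimise the distances in the chart
  have hnear : ∀ z, (∀ c, γ c < z c) → ∀ m, m ∈ Near v a (χ z) → ∀ m',
      dv (v m) (ψ m z) ≤ dv (v m') (ψ m' z) := by
    intro z hz m hm m'
    rw [← hc.dist z hz m, ← hc.dist z hz m']
    exact mul_le_mul_of_nonneg_left (hm m') (hc.pos z hz).le
  choose P hP hPe using fun m => Vrd.exists_poly_dv (v m) (ψ m) (hc.poly m)
  set α : Fin 3 → ℝ := fun c => max (γ c) (z0 c - δ / 4) with hα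
  set β : Fin 3 → ℝ := fun c => z0 c + δ / 4 with hβ
  have hγ : ∀ z : Fin 3 → ℝ, (∀ c, α c < z c ∧ z c < β c) → ∀ c, γ c < z c := fun z hz c =>
    (le_max_left _ _).trans_lt (hz c).1
  have hbox : ∀ z : Fin 3 → ℝ, (∀ c, α c < z c ∧ z c < β c) → ‖z - z0‖ ≤ δ / 4 := by
    intro z hz
    rw [pi_norm_le_iff_of_nonneg (by positivity)]
    intro c
    rw [Pi.sub_apply, Real.norm_eq_abs, abs_le]
    have h1 : z0 c - δ / 4 < z c := (le_max_right _ _).trans_lt (hz c).1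
    have h2 : z c < z0 c + δ / 4 := (hz c).2
    constructor <;> linarith
  set L : Finset (Fin n) := Finset.univ.filter fun m =>
    ∀ j, dv (v m) (ψ m z0) < dv (v j) (ψ j z0) + 2 * δ with hL
  have hmem : ∀ m, m ∈ L ↔ ∀ j, dv (v m) (ψ m z0) < dv (v j) (ψ j z0) + 2 * δ := by
    intro m
    rw [hL, Finset.mem_filter]
    exact ⟨fun h => h.2, fun h => ⟨Finset.mem_univ _, h⟩⟩
  have hNL : ∀ z, (∀ c, α c < z c ∧ z c < β c) → Near v a (χ z) ⊆ L := by
    intro z hz m hm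
    rw [Finset.mem_coe, hmem]
    intro j
    have h1 := hnear z (hγ z hz) m hm j
    have h2 := hlip j z z0
    have h3 := hlip m z0 z
    have h4 := hbox z hz
    have h5 : ‖z0 - z‖ ≤ δ / 4 := by rw [norm_sub_rev]; exact h4
    linarith
  have hmain := Vrd.faces_chart χ α β (hc.cont.mono fun z hz => hγ z hz) sc
    (fun z hz => hc.pos z (hγ z hz)) P hP
    (fun z hz m => by rw [hPe m z, hc.dist z (hγ z hz) m]) L hNL
  have hsub : {f | f ∈ Faces v a ∧ ∃ z, (∀ c, γ c < z c) ∧ ‖z - z0‖ ≤ δ / 8 ∧ χ z ∈ f} ⊆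
      {f | f ∈ Faces v a ∧ ∃ z, (∀ c, α c < z c ∧ z c < β c) ∧ χ z ∈ f} := by
    rintro f ⟨hf, z, hz, hz0, hzf⟩
    refine ⟨hf, z, fun c => ?_, hzf⟩
    have h1 := (pi_norm_le_iff_of_nonneg (by positivity)).1 hz0 c
    rw [Pi.sub_apply, Real.norm_eq_abs, abs_le] at h1
    refine ⟨max_lt (hz c) (by linarith [h1.1]), ?_⟩
    show z c < z0 c + δ / 4
    linarith [h1.2]
  have h2 := Vor.count_faces hn (fun m => dv (v m) (ψ m z0))
    (fun m => (Vrd.dv_basic (v m)).1 _) hδ L hmem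
  refine (ENat.toENNReal_mono ((Set.encard_le_encard hsub).trans hmain)).trans ?_
  rw [ENat.toENNReal_coe]
  exact h2
-- END cfb

-- BEGIN alf
private def alf_B {n : ℕ} (v a : Fin n → E) (χ : (Fin 3 → ℝ) → E) (γ : Fin 3 → ℝ) (δ : ℝ) (z0 : Fin 3 → ℝ) : Set (Set E) :=
  {f | f ∈ Faces v a ∧ ∃ z, (∀ c, γ c < z c) ∧ ‖z - z0‖ ≤ δ / 8 ∧ χ z ∈ f}

private theorem alf_union {A B : Set (Set E)} {x y : ℝ≥0∞} (hA : ((A.encard : ℕ∞) : ℝ≥0∞) ≤ x) (hB : ((B.encard : ℕ∞) : ℝ≥0∞) ≤ y) :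
    (((A ∪ B).encard : ℕ∞) : ℝ≥0∞) ≤ x + y := by
  refine le_trans ?_ (add_le_add hA hB)
  rw [← ENat.toENNReal_add]
  exact ENat.toENNReal_mono (Set.encard_union_le _ _)

/-- `x ∈ f`; `Vrd.exists_region x 0` with `R = 1`, `Vrd.exists_grid_point` (`lev q / 16 = (lev q / 2) / 8`), `Vrd.near_chart`, `Vrd.far_chart` (`o = 0`, `R = 1`, `simp`), row cfb; `Vor.fle_union` for the finite unions (index types `Fin 3 → ℝ`, and `Fin 3 × Bool × (Fin 3 → ℝ)` or three steps). -/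
theorem all_faces {n : ℕ} (hn : 0 < n) (v a : Fin n → E) (ha : ∀ m, ‖a m‖ ≤ 1) (q : ℕ) :
    (((Faces v a).encard : ℕ∞) : ℝ≥0∞) ≤
      (∑ z0 ∈ grid q, 10000000 * ∑' j : ℕ, ∑ i0, ∏ m,
        wt (lev q / 2) j (m = i0) (dv (v m) (nearPsi (a m) z0))) +
      ∑ c : Fin 3, ∑ s : Bool, ∑ z0 ∈ farGrid q, 10000000 * ∑' j : ℕ, ∑ i0, ∏ m,
        wt (lev q / 2) j (m = i0) (dv (v m) (farPsi c (sgn s) (a m) z0)) := by
  classical
  have hlev : 0 < lev q / 2 := by
    unfold Pool.Agent.Vrd.lev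
    positivity
  have hsc : ∀ m, (1 : ℝ)⁻¹ • (a m - 0) = a m := by
    intro m
    rw [inv_one, one_smul, sub_zero]
  have hnc := Pool.Agent.Vrd.near_chart v a 0 (R := 1) one_pos
  have hfc := fun (c : Fin 3) (s : Bool) => Pool.Agent.Vrd.far_chart v a 0 (R := 1) one_pos
    (fun m => by rw [sub_zero]; exact ha m) c (sgn s)
  have hN : ∀ z0 : Fin 3 → ℝ, (((alf_B v a (fun z => (0 : E) + (1 : ℝ) • (WithLp.toLp 2 z : E)) (fun _ => -3) (lev q / 2) z0).encard : ℕ∞) : ℝ≥0∞) ≤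
      10000000 * ∑' j : ℕ, ∑ i0, ∏ m, wt (lev q / 2) j (m = i0) (dv (v m) (nearPsi (a m) z0)) := by
    intro z0
    have h := chart_box hn hnc hlev z0
    simp only [hsc] at h
    exact h
  have hF : ∀ (c : Fin 3) (s : Bool) (z0 : Fin 3 → ℝ),
      (((alf_B v a (fun z => (0 : E) + (1 / z 2 : ℝ) • farVec c (sgn s) z) (fun k => if k = 2 then 0 else -3) (lev q / 2) z0).encard : ℕ∞) : ℝ≥0∞) ≤
      10000000 * ∑' j : ℕ, ∑ i0, ∏ m, wt (lev q / 2) j (m = i0) (dv (v m) (farPsi c (sgn s) (a m) z0)) := by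
    intro c s z0
    have h := chart_box hn (hfc c s) hlev z0
    simp only [hsc] at h
    exact h
  have hsub : Faces v a ⊆
      (⋃ z0 ∈ grid q, alf_B v a (fun z => (0 : E) + (1 : ℝ) • (WithLp.toLp 2 z : E)) (fun _ => -3) (lev q / 2) z0) ∪
      ⋃ c ∈ (Finset.univ : Finset (Fin 3)), ⋃ s ∈ (Finset.univ : Finset Bool), ⋃ z0 ∈ farGrid q,
        alf_B v a (fun z => (0 : E) + (1 / z 2 : ℝ) • farVec c (sgn s) z) (fun k => if k = 2 then 0 else -3) (lev q / 2) z0 := by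
    rintro f hf
    have hf' := hf
    obtain ⟨x, rfl⟩ := hf'
    have hx : x ∈ connectedComponentIn {y | Near v a y = Near v a x} x := mem_connectedComponentIn rfl
    have h16 : lev q / 16 = lev q / 2 / 8 := by ring
    rcases Pool.Agent.Vrd.exists_region x 0 (R := 1) one_pos with ⟨z, hz, hzx⟩ | ⟨c, s, z, hz, hz0, hz1, hzx⟩
    · obtain ⟨z0, hg, hd, _⟩ := Pool.Agent.Vrd.exists_grid_point z hz q
      refine Or.inl ?_
      simp only [mem_iUnion]
      refine ⟨z0, hg, hf, z, fun c => ?_, by rw [← h16]; exact hd, ?_⟩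
      · have h1 := (abs_le.1 (hz c)).1
        show (-3 : ℝ) < z c
        linarith
      · show (0 : E) + (1 : ℝ) • (WithLp.toLp 2 z : E) ∈ _
        rw [hzx]
        exact hx
    · obtain ⟨z0, hg, hd, hfar⟩ := Pool.Agent.Vrd.exists_grid_point z hz q
      refine Or.inr ?_
      simp only [mem_iUnion]
      refine ⟨c, Finset.mem_univ _, s, Finset.mem_univ _, z0, Finset.mem_filter.2 ⟨hg, hfar hz0.le hz1⟩, hf, z, fun k => ?_,
        by rw [← h16]; exact hd, ?_⟩
      · show (if k = 2 then (0 : ℝ) else -3) < z k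
        split_ifs with hk
        · rw [hk]
          exact hz0
        · have h1 := (abs_le.1 (hz k)).1
          linarith
      · show (0 : E) + (1 / z 2 : ℝ) • farVec c (sgn s) z ∈ _
        rw [hzx]
        exact hx
  refine (ENat.toENNReal_mono (Set.encard_le_encard hsub)).trans (alf_union ?_ ?_)
  · exact (Pool.Agent.Vor.fle_union _ _).trans (Finset.sum_le_sum fun z0 _ => hN z0)
  · refine (Pool.Agent.Vor.fle_union _ _).trans (Finset.sum_le_sum fun c _ => ?_)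
    refine (Pool.Agent.Vor.fle_union _ _).trans (Finset.sum_le_sum fun s _ => ?_)
    exact (Pool.Agent.Vor.fle_union _ _).trans (Finset.sum_le_sum fun z0 _ => hF c s z0)
-- END alf

-- BEGIN jms
/-- `dv v z = ‖z - ⟪‖v‖⁻¹ v, z⟫ (‖v‖⁻¹ v)‖`: norms, inverse, inner products of measurable functions. -/
theorem dv_measurable2 : Measurable fun q : E × E => dv q.1 q.2 := by
  unfold dv dl
  have h1 : Measurable fun q : E × E => ‖q.1‖⁻¹ • q.1 :=
    (measurable_norm.comp measurable_fst).inv.smul measurable_fst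
  have h2 : Measurable fun q : E × E => inner ℝ (‖q.1‖⁻¹ • q.1) q.2 := h1.inner measurable_snd
  exact (measurable_snd.sub (h2.smul h1)).norm
-- END jms

-- BEGIN wms
/-- `Vor.wt δ j star` is measurable on `ℝ` (see `Vor.wt_measurable`, row wme). -/
theorem wt_measurable_real (δ : ℝ) (j : ℕ) (star : Prop) [Decidable star] :
    Measurable (wt δ j star) := by
  unfold wt
  by_cases hs : star
  · simp only [hs, if_true]
    exact Measurable.ite ((measurableSet_le measurable_const measurable_id).inter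
      (measurableSet_lt measurable_id measurable_const)) measurable_const measurable_const
  · simp only [hs, if_false]
    exact Measurable.ite (measurableSet_le measurable_const measurable_id)
      (Measurable.ite (measurableSet_lt measurable_id measurable_const) measurable_const
        measurable_const) measurable_const
-- END wms

-- BEGIN nrp
private theorem nrp_wt (δ : ℝ) (j : ℕ) (star : Prop) [Decidable star] (D : ℝ) :
    wt δ j star (2 * D) = wt (δ / 2) j star D := by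
  unfold wt
  have e1 : ((j : ℝ) * δ ≤ 2 * D) ↔ ((j : ℝ) * (δ / 2) ≤ D) := by constructor <;> intro h <;> linarith
  have e2 : (2 * D < ((j : ℝ) + 1) * δ) ↔ (D < ((j : ℝ) + 1) * (δ / 2)) := by constructor <;> intro h <;> linarith
  have e3 : (2 * D < ((j : ℝ) + 3) * δ) ↔ (D < ((j : ℝ) + 3) * (δ / 2)) := by constructor <;> intro h <;> linarith
  simp only [e1, e2, e3]

private theorem nrp_two (F : E → ℝ≥0∞) (hF : Measurable F) :
    ∫⁻ w, F w = ∫⁻ w, 8 * F ((2 : ℝ) • w) := by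
  have h1 := Measure.map_addHaar_smul (volume : Measure E) (r := 2) (by norm_num)
  have h2 : ∫⁻ w, F ((2 : ℝ) • w) = ∫⁻ w, F w ∂(Measure.map (fun w : E => (2 : ℝ) • w) volume) :=
    (lintegral_map hF (by fun_prop)).symm
  have h3 : (fun w : E => (2 : ℝ) • w) = ((2 : ℝ) • ·) := rfl
  have hc : Measurable fun w : E => F ((2 : ℝ) • w) := hF.comp (by fun_prop)
  rw [lintegral_const_mul _ hc, h2, h3, h1, lintegral_smul_measure, smul_eq_mul, ← mul_assoc]
  have h4 : Module.finrank ℝ E = 3 := by simp [E]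
  have h5 : (8 : ℝ≥0∞) * ENNReal.ofReal |((2 : ℝ) ^ Module.finrank ℝ E)⁻¹| = 1 := by
    rw [h4, ← ENNReal.ofReal_ofNat, ← ENNReal.ofReal_mul (by norm_num)]
    norm_num
  rw [h5, one_mul]

/-- `u m = ‖v m‖⁻¹ v m`, `dv (v m) = dl (u m)`, `g0 = toLp z0`, `‖g0‖ ≤ 2√3 < 4`. `Vor.lintegral_shift`, then `w = 2 w'` (`Measure.lintegral_comp_smul` or `lintegral_map` with `Measure.map_addHaar_smul`, `finrank = 3`): the factor is `∫⁻ w, wt (δ/2) j _ (dl (u m) w) * h m w`, `h m w = 8 f m (g0 - 2 w)` (16K-Lipschitz, 0 for `‖w‖ > 3`, integral 1; `wt δ j s (2 D) = wt (δ/2) j s D`). `Vor.per_point` with the Lipschitz constant `K' = 1 / (250 n δ²) ≥ 16 K` and `δ/2`. -/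
theorem near_point {n : ℕ} (hn : 0 < n) {K : ℝ≥0} {f : Fin n → E → ℝ≥0}
    (hK : ∀ i, LipschitzWith K (f i)) (h0 : ∀ i x, 1 < ‖x‖ → f i x = 0)
    (h1 : ∀ i, ∫⁻ x, f i x = 1) {δ : ℝ} (hδ : 0 < δ) (hδK : 4000 * K * n * δ ^ 2 ≤ 1)
    {v : Fin n → E} (hv : ∀ m, v m ≠ 0) {z0 : Fin 3 → ℝ} (hz : ∀ k, |z0 k| ≤ 2) :
    ∑' j : ℕ, ∑ i0, ∏ m, ∫⁻ p, wt δ j (m = i0) (dv (v m) (nearPsi p z0))
      ∂((volume : Measure E).withDensity fun x => (f m x : ℝ≥0∞)) ≤
      ENNReal.ofReal (8 * Real.exp 56) := by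
  set g : E := WithLp.toLp 2 z0 with hg
  set u : Fin n → E := fun m => ‖v m‖⁻¹ • v m with hu
  have hu1 : ∀ m, ‖u m‖ = 1 := by
    intro m
    rw [hu]
    simp only [norm_smul, norm_inv, norm_norm]
    exact inv_mul_cancel₀ (norm_ne_zero_iff.2 (hv m))
  have hg4 : ‖g‖ ≤ 4 := by
    have hsq : ∀ k, (z0 k) ^ 2 ≤ 4 := fun k => by
      have := hz k
      rw [← sq_abs]
      nlinarith [abs_nonneg (z0 k)]
    rw [EuclideanSpace.norm_eq, Real.sqrt_le_left (by norm_num), Fin.sum_univ_three]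
    simp only [Real.norm_eq_abs, sq_abs]
    have e0 := hsq 0
    have e1 := hsq 1
    have e2 := hsq 2
    show (z0 0) ^ 2 + (z0 1) ^ 2 + (z0 2) ^ 2 ≤ 4 ^ 2
    linarith
  have hnR : (0 : ℝ) < n := by exact_mod_cast hn
  have hfm : ∀ i, Measurable (f i) := fun i => (hK i).continuous.measurable
  -- the new densities
  set h : Fin n → E → ℝ≥0 := fun m w => 8 * f m (g - (2 : ℝ) • w) with hh
  set K' : ℝ≥0 := ⟨1 / (250 * n * δ ^ 2), by positivity⟩ with hK'
  have hKK : 8 * (K * 2) ≤ K' := by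
    rw [← NNReal.coe_le_coe]
    push_cast
    show (8 : ℝ) * (K * 2) ≤ 1 / (250 * n * δ ^ 2)
    rw [le_div_iff₀ (by positivity)]
    nlinarith
  have hhK : ∀ i, LipschitzWith K' (h i) := by
    intro i
    have a1 : LipschitzWith 2 (fun w : E => g - (2 : ℝ) • w) := by
      refine LipschitzWith.of_dist_le_mul fun x y => ?_
      rw [dist_eq_norm, dist_eq_norm, sub_sub_sub_cancel_left, ← smul_sub, norm_smul, norm_sub_rev]
      norm_num
    have a2 : LipschitzWith (K * 2) (fun w : E => f i (g - (2 : ℝ) • w)) := (hK i).comp a1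
    have a3 : LipschitzWith (8 * (K * 2)) (h i) := by
      refine LipschitzWith.of_dist_le_mul fun x y => ?_
      have a4 := a2.dist_le_mul x y
      rw [NNReal.dist_eq] at a4 ⊢
      rw [hh]
      push_cast
      rw [← mul_sub, abs_mul, abs_of_pos (by norm_num : (0 : ℝ) < 8), mul_assoc]
      push_cast at a4
      exact mul_le_mul_of_nonneg_left a4 (by norm_num)
    exact a3.weaken hKK
  have hh0 : ∀ i w, 3 < ‖w‖ → h i w = 0 := by
    intro i w hw
    have b1 : 1 < ‖g - (2 : ℝ) • w‖ := by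
      have b2 : ‖(2 : ℝ) • w‖ ≤ ‖g‖ + ‖g - (2 : ℝ) • w‖ := by
        have := norm_sub_le g (g - (2 : ℝ) • w)
        rwa [sub_sub_cancel] at this
      rw [norm_smul, Real.norm_of_nonneg (by norm_num)] at b2
      linarith
    rw [hh]
    simp only [h0 i _ b1, mul_zero]
  have hcont : ∀ i, Measurable (fun w : E => ((f i (g - w) : ℝ≥0) : ℝ≥0∞)) := fun i =>
    ((hfm i).comp (by fun_prop)).coe_nnreal_ennreal
  have hh1 : ∀ i, ∫⁻ w, h i w = 1 := by
    intro i
    have c1 := nrp_two (fun w : E => ((f i (g - w) : ℝ≥0) : ℝ≥0∞)) (hcont i)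
    rw [lintegral_sub_left_eq_self (fun w => ((f i w : ℝ≥0) : ℝ≥0∞)) g, h1 i] at c1
    rw [c1]
    refine lintegral_congr fun w => ?_
    rw [hh]
    push_cast
    rfl
  have hmain := Vor.per_point hn hu1 hhK hh0 hh1 (δ := δ / 2) (by positivity) (by
    show 1000 * (1 / (250 * n * δ ^ 2)) * (δ / 2) ^ 2 = 1 / n
    field_simp
    norm_num)
  refine le_trans (le_of_eq ?_) hmain
  refine tsum_congr fun j => Finset.sum_congr rfl fun i0 _ => Finset.prod_congr rfl fun m _ => ?_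
  have hw : Measurable (fun w : E => wt δ j (m = i0) (dl (u m) w)) := by
    have d1 := Vor.wt_measurable (hu1 m) δ j (m = i0) 0
    have d2 : Measurable fun w : E => wt δ j (m = i0) (dl (u m) (0 - -w)) :=
      d1.comp measurable_neg
    simpa using d2
  have e1 : ∫⁻ p, wt δ j (m = i0) (dv (v m) (nearPsi p z0))
      ∂((volume : Measure E).withDensity fun x => (f m x : ℝ≥0∞)) =
      ∫⁻ w, wt δ j (m = i0) (dl (u m) w) * f m (g - w) :=
    Vor.lintegral_shift (hfm m) g (fun w => wt δ j (m = i0) (dl (u m) w)) hw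
  have e3 := nrp_two (fun w : E => wt δ j (m = i0) (dl (u m) w) * ((f m (g - w) : ℝ≥0) : ℝ≥0∞))
    (hw.mul (hcont m))
  refine e1.trans (e3.trans (lintegral_congr fun w => ?_))
  have e2 : dl (u m) ((2 : ℝ) • w) = 2 * dl (u m) w := by
    have := (Vrd.dv_basic (v m)).2.2.1 2 w
    rw [abs_two] at this
    exact this
  rw [e2, nrp_wt, hh]
  push_cast
  ring
-- END nrp

-- BEGIN frp
/-- `c` from `far_ring K`. `per_point_gen` with `μ i = volume.withDensity (g i)`, `D i = fun v => dv v (w i)`; the hypothesis: `far_ring` with `t = 1/n`, `r = jδ` (`withDensity_apply`, `toReal`; `{D < (j+1)δ}` is the disjoint union of `{D < jδ}` and the ring). -/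
theorem far_point (K : ℝ≥0) : ∃ c : ℝ, 0 < c ∧ ∀ (n : ℕ), 0 < n → ∀ g : Fin n → E → ℝ≥0,
    (∀ i, LipschitzWith K (g i)) → (∀ i x, 1 < ‖x‖ → g i x = 0) → (∀ i, ∫⁻ x, g i x = 1) →
    ∀ δ : ℝ, 0 < δ → δ ≤ c → n * δ ^ 2 ≤ c → ∀ w : Fin n → E, (∀ m, 1 / 2 ≤ ‖w m‖) →
    ∑' j : ℕ, ∑ i0, ∏ m, ∫⁻ v, wt δ j (m = i0) (dv v (w m))
      ∂((volume : Measure E).withDensity fun x => (g m x : ℝ≥0∞)) ≤
      ENNReal.ofReal (4 * Real.exp 79) := by
  obtain ⟨c, hc, H⟩ := far_ring K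
  refine ⟨c, hc, ?_⟩
  intro n hn g hK h0 h1 δ hδ hδc hnδ w hw
  have hprob : ∀ i, IsProbabilityMeasure ((volume : Measure E).withDensity fun x => (g i x : ℝ≥0∞)) := by
    intro i
    refine ⟨?_⟩
    rw [withDensity_apply _ MeasurableSet.univ, Measure.restrict_univ]
    exact h1 i
  refine per_point_gen hn (fun i => (volume : Measure E).withDensity fun x => (g i x : ℝ≥0∞))
    (fun i v => dv v (w i)) (fun i => Vrd.dv_measurable (w i)) (fun i x => (Vrd.dv_basic x).1 (w i)) hδ ?_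
  intro i j
  have hmeas : Measurable fun v : E => dv v (w i) := Vrd.dv_measurable (w i)
  have hj : (((j + 1 : ℕ) : ℝ)) * δ = (j : ℝ) * δ + δ := by
    push_cast
    ring
  rw [hj]
  have hn0 : (0 : ℝ) < n := by exact_mod_cast hn
  have hr0 : (0 : ℝ) ≤ (j : ℝ) * δ := by positivity
  have hb := H (g i) (hK i) (h0 i) (h1 i) (w i) (hw i) δ (1 / (n : ℝ)) ((j : ℝ) * δ) hδ hδc
    (by
      rw [mul_one_div, le_div_iff₀ hn0]
      linarith [mul_comm (n : ℝ) (δ ^ 2)]) hr0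
  have hS1 : MeasurableSet {v : E | (j : ℝ) * δ ≤ dv v (w i) ∧ dv v (w i) < (j : ℝ) * δ + δ} :=
    (measurableSet_le measurable_const hmeas).inter (measurableSet_lt hmeas measurable_const)
  have hS2 : MeasurableSet {v : E | dv v (w i) < (j : ℝ) * δ + δ} := measurableSet_lt hmeas measurable_const
  rw [← withDensity_apply _ hS1, ← withDensity_apply _ hS2] at hb
  set μ : Measure E := (volume : Measure E).withDensity fun x => (g i x : ℝ≥0∞) with hμ
  have : IsProbabilityMeasure μ := hprob i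
  have hsub : {v : E | dv v (w i) < (j : ℝ) * δ + δ} ⊆ {v : E | dv v (w i) < (j : ℝ) * δ} ∪
      {v : E | (j : ℝ) * δ ≤ dv v (w i) ∧ dv v (w i) < (j : ℝ) * δ + δ} := by
    intro v hv
    rcases lt_or_ge (dv v (w i)) ((j : ℝ) * δ) with h | h
    · exact Or.inl h
    · exact Or.inr ⟨h, hv⟩
  have hu : μ.real {v : E | dv v (w i) < (j : ℝ) * δ + δ} ≤ μ.real {v : E | dv v (w i) < (j : ℝ) * δ} +
      μ.real {v : E | (j : ℝ) * δ ≤ dv v (w i) ∧ dv v (w i) < (j : ℝ) * δ + δ} :=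
    (measureReal_mono hsub).trans (measureReal_union_le _ _)
  have hb2 : μ.real {v : E | (j : ℝ) * δ ≤ dv v (w i) ∧ dv v (w i) < (j : ℝ) * δ + δ} ≤
      μ.real {v : E | dv v (w i) < (j : ℝ) * δ + δ} / 12 + 18 / n := by
    have h2 := ENNReal.toReal_mono (by
      refine ENNReal.add_ne_top.2 ⟨ENNReal.mul_ne_top ENNReal.ofReal_ne_top (measure_ne_top _ _),
        ENNReal.ofReal_ne_top⟩) hb
    rw [ENNReal.toReal_add (ENNReal.mul_ne_top ENNReal.ofReal_ne_top (measure_ne_top _ _))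
      ENNReal.ofReal_ne_top, ENNReal.toReal_mul, ENNReal.toReal_ofReal (by norm_num),
      ENNReal.toReal_ofReal (by positivity)] at h2
    unfold Measure.real
    calc _ ≤ _ := h2
      _ = _ := by ring
  linarith
-- END frp

-- BEGIN lvq
/-- Least `q` with `2 ^ (-q) ≤ x / 2`, i.e. `lev q / 2 = 2 · (1/2)^q ≤ x`; then `x < 2 · (lev q / 2)` or `q = 0` (where `lev 0 / 2 = 2 ≥ 1 ≥ x`). -/
theorem exists_level {x : ℝ} (h0 : 0 < x) (h1 : x ≤ 1) : ∃ q, lev q / 2 ≤ x ∧ x ≤ 2 * (lev q / 2) := by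
  classical
  have hex : ∃ q, lev q / 2 ≤ x := by
    obtain ⟨n, hn⟩ := exists_pow_lt_of_lt_one (show (0 : ℝ) < x / 2 by linarith)
      (show (1 / 2 : ℝ) < 1 by norm_num)
    refine ⟨n, ?_⟩
    unfold lev
    linarith
  refine ⟨Nat.find hex, Nat.find_spec hex, ?_⟩
  rcases Nat.eq_zero_or_pos (Nat.find hex) with h | h
  · rw [h]
    unfold lev
    norm_num
    linarith
  · have h2 := Nat.find_min hex (m := Nat.find hex - 1) (by omega)
    rw [not_le] at h2
    obtain ⟨k, hk⟩ : ∃ k, Nat.find hex = k + 1 := ⟨Nat.find hex - 1, by omega⟩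
    rw [hk] at h2 ⊢
    simp only [Nat.add_sub_cancel] at h2
    unfold lev at h2 ⊢
    rw [pow_succ]
    linarith
-- END lvq

end Pool.Agent.Vws
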