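import Pool.Agent.Vws.Cov

/-!
The whole Voronoi diagram of lines with random positions and random directions
-/

set_option autoImplicit false

namespace Pool.Agent.Vws

open MeasureTheory Set
open scoped ENNReal NNReal
open Pool.Agent.Vor (E dl line wt Near Faces)
open Pool.Agent.Vrd (dv lev grid farGrid nearPsi farVec farPsi sgn IsChart)

-- BEGIN fub
private theorem fub_near (z0 : Fin 3 → ℝ) : Measurable fun b : E => nearPsi b z0 := by
  unfold nearPsi
  exact (continuous_const.sub continuous_id).measurable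

private theorem fub_dv (z0 : Fin 3 → ℝ) :
    Measurable fun q : E × E => dv q.2 (nearPsi q.1 z0) := by
  have h1 : Measurable fun q : E × E => (q.2, nearPsi q.1 z0) :=
    measurable_snd.prodMk ((fub_near z0).comp measurable_fst)
  have h := dv_measurable2.comp h1
  simp only [Function.comp_def] at h
  exact h

private theorem fub_fac {n : ℕ} (δ : ℝ) (z0 : Fin 3 → ℝ) (j : ℕ) (i0 m : Fin n) :
    Measurable fun q : E × E => wt δ j (m = i0) (dv q.2 (nearPsi q.1 z0)) := by
  have h := (wt_measurable_real δ j (m = i0)).comp (fub_dv z0)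
  simp only [Function.comp_def] at h
  exact h

private theorem fub_meas {n : ℕ} (δ : ℝ) (z0 : Fin 3 → ℝ) (j : ℕ) (i0 : Fin n) :
    Measurable fun q : (Fin n → E) × (Fin n → E) =>
      ∏ m, wt δ j (m = i0) (dv (q.2 m) (nearPsi (q.1 m) z0)) := by
  refine Finset.measurable_prod _ fun m _ => ?_
  have h1 : Measurable fun q : (Fin n → E) × (Fin n → E) => (q.1 m, q.2 m) :=
    ((measurable_pi_apply m).comp measurable_fst).prodMk
      ((measurable_pi_apply m).comp measurable_snd)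
  have h := (fub_fac δ z0 j i0 m).comp h1
  simp only [Function.comp_def] at h
  exact h

private theorem fub_sec {n : ℕ} (δ : ℝ) (z0 : Fin 3 → ℝ) (j : ℕ) (i0 : Fin n) (v : Fin n → E) :
    Measurable fun p : Fin n → E => ∏ m, wt δ j (m = i0) (dv (v m) (nearPsi (p m) z0)) := by
  have h1 : Measurable fun p : Fin n → E => (p, v) := measurable_id.prodMk measurable_const
  have h := (fub_meas δ z0 j i0).comp h1
  simp only [Function.comp_def] at h
  exact h

private theorem fub_one {n : ℕ} (δ : ℝ) (z0 : Fin 3 → ℝ) (j : ℕ) (i0 m : Fin n) (w : E) :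
    Measurable fun x : E => wt δ j (m = i0) (dv w (nearPsi x z0)) := by
  have h1 : Measurable fun x : E => (x, w) := measurable_id.prodMk measurable_const
  have h := (fub_fac δ z0 j i0 m).comp h1
  simp only [Function.comp_def] at h
  exact h

/-- Write `W δ j D` for the sum; `lintegral_finset_sum`, `lintegral_tsum`, `lintegral_prod_symm` (or `lintegral_prod` after `Measure.prod_swap`) with measurability from jms, wms, then `Vor.lintegral_pi_prod` for fixed `v`; `v m ≠ 0` for almost all `v` (absolutely continuous: `measure_singleton`, `Measure.ae_pi`/`ae_eval`). -/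
theorem near_fubini {n : ℕ} (μ ν : Fin n → Measure E) [∀ i, IsProbabilityMeasure (μ i)]
    [∀ i, IsProbabilityMeasure (ν i)] (hν : ∀ i, ν i {0} = 0) (δ : ℝ) (z0 : Fin 3 → ℝ) {C : ℝ≥0∞}
    (h : ∀ v : Fin n → E, (∀ m, v m ≠ 0) →
      ∑' j : ℕ, ∑ i0, ∏ m, ∫⁻ p, wt δ j (m = i0) (dv (v m) (nearPsi p z0)) ∂(μ m) ≤ C) :
    ∫⁻ q, ∑' j : ℕ, ∑ i0, ∏ m, wt δ j (m = i0) (dv (q.2 m) (nearPsi (q.1 m) z0))
      ∂((Measure.pi μ).prod (Measure.pi ν)) ≤ C := by
  have hmeas : Measurable fun q : (Fin n → E) × (Fin n → E) =>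
      ∑' j : ℕ, ∑ i0, ∏ m, wt δ j (m = i0) (dv (q.2 m) (nearPsi (q.1 m) z0)) :=
    Measurable.tsum fun j => Finset.measurable_sum _ fun i0 _ => fub_meas δ z0 j i0
  rw [lintegral_prod_symm _ hmeas.aemeasurable]
  have hae : ∀ᵐ v ∂(Measure.pi ν), ∀ m, v m ≠ 0 := by
    rw [Filter.eventually_all]
    intro m
    have h1 : ∀ᵐ x ∂(ν m), x ≠ 0 := by
      rw [ae_iff]
      have e : {x : E | ¬ x ≠ 0} = {0} := by
        ext x; simp
      rw [e]
      exact hν m
    exact (Measure.tendsto_eval_ae_ae (μ := ν) (i := m)).eventually h1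
  have hle : ∀ᵐ v ∂(Measure.pi ν), ∫⁻ p, ∑' j : ℕ, ∑ i0, ∏ m,
      wt δ j (m = i0) (dv (v m) (nearPsi (p m) z0)) ∂(Measure.pi μ) ≤ C := by
    filter_upwards [hae] with v hv
    refine le_trans (le_of_eq ?_) (h v hv)
    rw [lintegral_tsum fun j =>
      (Finset.measurable_sum _ fun i0 _ => fub_sec δ z0 j i0 v).aemeasurable]
    refine tsum_congr fun j => ?_
    rw [lintegral_finsetSum _ fun i0 _ => fub_sec δ z0 j i0 v]
    refine Finset.sum_congr rfl fun i0 _ => ?_
    exact Vor.lintegral_pi_prod μ (fun m x => wt δ j (m = i0) (dv (v m) (nearPsi x z0)))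
      fun m => fub_one δ z0 j i0 m (v m)
  calc ∫⁻ v, ∫⁻ p, ∑' j : ℕ, ∑ i0, ∏ m,
      wt δ j (m = i0) (dv (v m) (nearPsi (p m) z0)) ∂(Measure.pi μ) ∂(Measure.pi ν)
      ≤ ∫⁻ _v, C ∂(Measure.pi ν) := lintegral_mono_ae hle
    _ = C := by rw [lintegral_const, measure_univ, mul_one]
-- END fub

-- BEGIN fuf
private theorem fuf_term {n : ℕ} (δ : ℝ) {ψ : E → E} (hψ : Measurable ψ) (j : ℕ) (i0 : Fin n) :
    Measurable fun r : (Fin n → E) × (Fin n → E) =>
      ∏ m, wt δ j (m = i0) (dv (r.2 m) (ψ (r.1 m))) := by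
  refine Finset.measurable_prod _ fun m _ => ?_
  have h2 : Measurable fun r : (Fin n → E) × (Fin n → E) => (r.2 m, ψ (r.1 m)) :=
    ((measurable_pi_apply m).comp measurable_snd).prodMk
      (hψ.comp ((measurable_pi_apply m).comp measurable_fst))
  have h3 := dv_measurable2.comp h2
  have h4 := (wt_measurable_real δ j (m = i0)).comp h3
  exact h4

private theorem fuf_grid {q : ℕ} {z0 : Fin 3 → ℝ} (h : z0 ∈ grid q) (k : Fin 3) : |z0 k| ≤ 2 := by
  unfold grid at h
  rw [Finset.mem_image] at h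
  obtain ⟨m, hm, rfl⟩ := h
  rw [Fintype.mem_piFinset] at hm
  have hk := Finset.mem_Icc.1 (hm k)
  have hp : 0 < lev q := by
    unfold lev
    positivity
  have h1 : |(m k : ℝ)| ≤ 4 * 2 ^ q := by
    rw [abs_le]
    constructor
    · have : ((-(4 * 2 ^ q : ℤ) : ℤ) : ℝ) ≤ (m k : ℝ) := by exact_mod_cast hk.1
      push_cast at this
      linarith
    · have : (m k : ℝ) ≤ ((4 * 2 ^ q : ℤ) : ℝ) := by exact_mod_cast hk.2
      push_cast at this
      linarith
  have h2 : lev q * 2 ^ q = 4 := by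
    unfold lev
    rw [mul_assoc, ← mul_pow]
    norm_num
  rw [abs_mul, abs_of_pos (by positivity)]
  calc lev q / 8 * |(m k : ℝ)| ≤ lev q / 8 * (4 * 2 ^ q) :=
        mul_le_mul_of_nonneg_left h1 (by positivity)
    _ = 2 := by linarith

/-- As fub, integrating over `q.2` first (`lintegral_prod`) for fixed `q.1 = p`; `‖p m‖ ≤ 1` for almost all `p` (hypothesis `hμ`), and then `1/2 ≤ ‖farPsi c (sgn s) (p m) z0‖` by `Vrd.psi_norm`. -/
theorem far_fubini {n : ℕ} (μ ν : Fin n → Measure E) [∀ i, IsProbabilityMeasure (μ i)]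
    [∀ i, IsProbabilityMeasure (ν i)] (hμ : ∀ i, μ i {x | 1 < ‖x‖} = 0) (δ : ℝ) {q0 : ℕ}
    {z0 : Fin 3 → ℝ} (hz0 : z0 ∈ farGrid q0) (c : Fin 3) (s : Bool) {C : ℝ≥0∞}
    (h : ∀ w : Fin n → E, (∀ m, 1 / 2 ≤ ‖w m‖) →
      ∑' j : ℕ, ∑ i0, ∏ m, ∫⁻ v, wt δ j (m = i0) (dv v (w m)) ∂(ν m) ≤ C) :
    ∫⁻ q, ∑' j : ℕ, ∑ i0, ∏ m, wt δ j (m = i0) (dv (q.2 m) (farPsi c (sgn s) (q.1 m) z0))
      ∂((Measure.pi μ).prod (Measure.pi ν)) ≤ C := by
  have hψ : Measurable fun p : E => farPsi c (sgn s) p z0 := by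
    unfold farPsi
    fun_prop
  have hm : Measurable fun q : (Fin n → E) × (Fin n → E) => ∑' j : ℕ, ∑ i0, ∏ m,
      wt δ j (m = i0) (dv (q.2 m) (farPsi c (sgn s) (q.1 m) z0)) :=
    Measurable.tsum fun j => Finset.measurable_sum _ fun i0 _ => fuf_term δ hψ j i0
  rw [lintegral_prod _ hm.aemeasurable]
  have hae : ∀ᵐ p ∂(Measure.pi μ), ∀ m, ‖p m‖ ≤ 1 := by
    rw [ae_all_iff]
    intro m
    have h1 : ∀ᵐ x ∂(μ m), ‖x‖ ≤ 1 := by
      rw [ae_iff]
      simpa only [not_le] using hμ m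
    exact (Measure.quasiMeasurePreserving_eval μ m).ae h1
  have hz := Finset.mem_filter.1 hz0
  calc ∫⁻ p, ∫⁻ v, ∑' j : ℕ, ∑ i0, ∏ m, wt δ j (m = i0) (dv (v m) (farPsi c (sgn s) (p m) z0))
          ∂(Measure.pi ν) ∂(Measure.pi μ)
      ≤ ∫⁻ _p, C ∂(Measure.pi μ) := by
        refine lintegral_mono_ae ?_
        filter_upwards [hae] with p hp
        have h1 := h (fun m => farPsi c (sgn s) (p m) z0)
          (fun m => ((Vrd.psi_norm (hp m) z0 (fuf_grid hz.1)).2 c s hz.2.1 hz.2.2).2)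
        have pm : ∀ (j : ℕ) (i0 : Fin n), Measurable fun v : Fin n → E =>
            ∏ m, wt δ j (m = i0) (dv (v m) (farPsi c (sgn s) (p m) z0)) := by
          intro j i0
          have h6 : Measurable fun v : Fin n → E => (p, v) := measurable_prodMk_left
          have h7 := (fuf_term δ hψ j i0).comp h6
          exact h7
        refine le_trans (le_of_eq ?_) h1
        rw [lintegral_tsum (fun j => (Finset.measurable_sum _ fun i0 _ => pm j i0).aemeasurable)]
        refine tsum_congr fun j => ?_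
        rw [lintegral_finsetSum _ (fun i0 _ => pm j i0)]
        refine Finset.sum_congr rfl fun i0 _ => ?_
        have h5 : ∀ m, Measurable fun v : E =>
            wt δ j (m = i0) (dv v (farPsi c (sgn s) (p m) z0)) := by
          intro m
          have h6 := (wt_measurable_real δ j (m = i0)).comp
            (Vrd.dv_measurable (farPsi c (sgn s) (p m) z0))
          exact h6
        exact Vor.lintegral_pi_prod ν
          (fun m v => wt δ j (m = i0) (dv v (farPsi c (sgn s) (p m) z0))) h5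
    _ = C := by
        rw [lintegral_const, measure_univ, mul_one]
-- END fuf

-- BEGIN wsm
private theorem wsm_term {n : ℕ} (δ : ℝ) {ψ : E → E} (hψ : Measurable ψ) :
    Measurable fun r : (Fin n → E) × (Fin n → E) =>
      (10000000 : ℝ≥0∞) * ∑' j : ℕ, ∑ i0, ∏ m, wt δ j (m = i0) (dv (r.2 m) (ψ (r.1 m))) := by
  have h1 : ∀ (j : ℕ) (i0 m : Fin n), Measurable fun r : (Fin n → E) × (Fin n → E) =>
      wt δ j (m = i0) (dv (r.2 m) (ψ (r.1 m))) := by
    intro j i0 m
    have h2 : Measurable fun r : (Fin n → E) × (Fin n → E) => (r.2 m, ψ (r.1 m)) :=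
      ((measurable_pi_apply m).comp measurable_snd).prodMk
        (hψ.comp ((measurable_pi_apply m).comp measurable_fst))
    have h3 := dv_measurable2.comp h2
    have h4 := (wt_measurable_real δ j (m = i0)).comp h3
    exact h4
  exact Measurable.const_mul (Measurable.tsum fun j => Finset.measurable_sum _ fun i0 _ =>
    Finset.measurable_prod _ fun m _ => h1 j i0 m) _

/-- The right side of row alf is a measurable function of `(p, v)`: jms, wms, `measurable_pi_apply`, `farPsi`, `nearPsi` are continuous in `a m`. -/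
theorem weight_measurable {n : ℕ} (δ : ℝ) (q : ℕ) :
    Measurable fun r : (Fin n → E) × (Fin n → E) =>
      (∑ z0 ∈ grid q, 10000000 * ∑' j : ℕ, ∑ i0, ∏ m,
        wt δ j (m = i0) (dv (r.2 m) (nearPsi (r.1 m) z0))) +
      ∑ c : Fin 3, ∑ s : Bool, ∑ z0 ∈ farGrid q, 10000000 * ∑' j : ℕ, ∑ i0, ∏ m,
        wt δ j (m = i0) (dv (r.2 m) (farPsi c (sgn s) (r.1 m) z0)) := by
  refine Measurable.add ?_ ?_
  · refine Finset.measurable_sum _ fun z0 _ => wsm_term δ (ψ := fun p => nearPsi p z0) ?_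
    unfold nearPsi
    fun_prop
  · refine Finset.measurable_sum _ fun c _ => Finset.measurable_sum _ fun s _ =>
      Finset.measurable_sum _ fun z0 _ => wsm_term δ (ψ := fun p => farPsi c (sgn s) p z0) ?_
    unfold farPsi
    fun_prop
-- END wsm

-- BEGIN dj2
/-- For fixed `i ≠ j` the bad pairs are contained in the closed set where the determinant `det (v i, v j, p i - p j)` vanishes (three vectors of a proper subspace). For fixed `v` with `v i`, `v j` linearly independent this is a null set of `p` (`Vor.dsj_null` and the product structure, as in `Vor.ae_disjoint`), and almost all `v` are such (`v j ∉ span {v i}`, a null set for `v j`). `Measure.ae_prod_iff_ae_ae`/`measure_prod_null` need the measurable set, which the determinant gives. -/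
theorem ae_disjoint2 {n : ℕ} (μ ν : Fin n → Measure E) [∀ i, IsProbabilityMeasure (μ i)]
    [∀ i, IsProbabilityMeasure (ν i)] (hμ : ∀ i, μ i ≪ volume) (hν : ∀ i, ν i ≪ volume) :
    ∀ᵐ q ∂((Measure.pi μ).prod (Measure.pi ν)), (∀ i, q.2 i ≠ 0) ∧
      ∀ i j, i ≠ j → Disjoint (line (q.1 i) (q.2 i)) (line (q.1 j) (q.2 j)) := by
  have h1 : ∀ i, ∀ᵐ q ∂((Measure.pi μ).prod (Measure.pi ν)), q.2 i ≠ 0 := by
    intro i
    have h2 : ∀ᵐ x ∂(ν i), x ≠ 0 := by
      have h0 : ν i {0} = 0 := hν i (measure_singleton 0)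
      filter_upwards [measure_eq_zero_iff_ae_notMem.1 h0] with x hx hx0
      exact hx hx0
    have h3 := (Measure.quasiMeasurePreserving_eval ν i).ae h2
    exact Measure.quasiMeasurePreserving_snd.ae h3
  have h4 : ∀ i j, i ≠ j → ∀ᵐ q ∂((Measure.pi μ).prod (Measure.pi ν)),
      Disjoint (line (q.1 i) (q.2 i)) (line (q.1 j) (q.2 j)) := by
    intro i j hij
    obtain ⟨B, hB⟩ : ∃ B : Set ((Fin n → E) × (Fin n → E)),
      B = {q | ¬ Disjoint (line (q.1 i) (q.2 i)) (line (q.1 j) (q.2 j))} := ⟨_, rfl⟩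
    have hBr : B = Set.range (fun r : (ℝ × ℝ) × ((Fin n → E) × (Fin n → E)) =>
        ((Function.update r.2.1 i (r.2.1 j + r.1.1 • r.2.2 j - r.1.2 • r.2.2 i), r.2.2) :
          (Fin n → E) × (Fin n → E))) := by
      rw [hB]
      ext q
      constructor
      · intro hq
        obtain ⟨y, ⟨t, ht⟩, ⟨s, hs⟩⟩ := Set.not_disjoint_iff.1 hq
        refine ⟨((s, t), q), ?_⟩
        have h5 : q.1 j + s • q.2 j - t • q.2 i = q.1 i := by
          rw [← hs, ht, add_sub_cancel_right]
        show (Function.update q.1 i (q.1 j + s • q.2 j - t • q.2 i), q.2) = q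
        rw [h5, Function.update_eq_self]
      · rintro ⟨⟨⟨s, t⟩, q⟩, rfl⟩
        refine Set.not_disjoint_iff.2 ⟨q.1 j + s • q.2 j, ⟨t, ?_⟩, ⟨s, ?_⟩⟩
        · show q.1 j + s • q.2 j =
            Function.update q.1 i (q.1 j + s • q.2 j - t • q.2 i) i + t • q.2 i
          rw [Function.update_self, sub_add_cancel]
        · show q.1 j + s • q.2 j =
            Function.update q.1 i (q.1 j + s • q.2 j - t • q.2 i) j + s • q.2 j
          rw [Function.update_of_ne (Ne.symm hij)]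
    have hBm : MeasurableSet B := by
      have hc : Continuous (fun r : (ℝ × ℝ) × ((Fin n → E) × (Fin n → E)) =>
          ((Function.update r.2.1 i (r.2.1 j + r.1.1 • r.2.2 j - r.1.2 • r.2.2 i), r.2.2) :
            (Fin n → E) × (Fin n → E))) := by
        refine Continuous.prodMk (Continuous.update (by fun_prop) i ?_) (by fun_prop)
        fun_prop
      rw [hBr]
      obtain ⟨K, hK, hU⟩ := isSigmaCompact_range hc
      rw [← hU]
      exact MeasurableSet.iUnion fun n => (hK n).measurableSet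
    have hB0 : ((Measure.pi μ).prod (Measure.pi ν)) B = 0 := by
      rw [Measure.prod_apply_symm hBm]
      rw [lintegral_eq_zero_of_ae_eq_zero]
      refine Filter.Eventually.of_forall fun v => ?_
      refine measure_eq_zero_iff_ae_notMem.2 ?_
      filter_upwards [Vor.ae_disjoint (u := v) μ hμ] with p hp hpB
      have h6 : (p, v) ∈ B := hpB
      rw [hB] at h6
      exact h6 (hp i j hij)
    filter_upwards [measure_eq_zero_iff_ae_notMem.1 hB0] with q hq
    rw [hB] at hq
    exact not_not.1 hq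
  filter_upwards [ae_all_iff.2 h1, ae_all_iff.2 fun i => ae_all_iff.2 fun j =>
    (Filter.eventually_imp_distrib_left.2 (h4 i j))] with q hq1 hq2
  exact ⟨hq1, hq2⟩
-- END dj2

-- BEGIN mnw
theorem mnw_null {f : E → ℝ≥0} (h0 : ∀ x, 1 < ‖x‖ → f x = 0) :
    ((volume : Measure E).withDensity fun x => (f x : ℝ≥0∞)) {x | 1 < ‖x‖} = 0 := by
  have hm : MeasurableSet {x : E | 1 < ‖x‖} := measurableSet_lt measurable_const measurable_norm
  rw [withDensity_apply _ hm, setLIntegral_congr_fun (g := fun _ => 0) hm]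
  · simp
  · intro x hx
    simp only
    rw [h0 x hx]
    rfl

theorem mnw_ae {n : ℕ} (μ ν : Fin n → Measure E) [∀ i, IsProbabilityMeasure (μ i)]
    [∀ i, IsProbabilityMeasure (ν i)] (hμ : ∀ i, μ i {x | 1 < ‖x‖} = 0) :
    ∀ᵐ q ∂((Measure.pi μ).prod (Measure.pi ν)), ∀ m, ‖q.1 m‖ ≤ 1 := by
  have h1 : ∀ᵐ p ∂(Measure.pi μ), ∀ m, ‖p m‖ ≤ 1 := by
    rw [ae_all_iff]
    intro m
    have h2 : ∀ᵐ x ∂(μ m), ‖x‖ ≤ 1 := by
      rw [ae_iff]
      simpa only [not_le] using! hμ m
    exact (measurePreserving_eval μ m).quasiMeasurePreserving.ae h2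
  exact Measure.quasiMeasurePreserving_fst.ae h1

theorem mnw_card (q : ℕ) : ((grid q).card : ℝ) * lev q ^ 3 ≤ 50000 := by
  have h1 : (grid q).card ≤ (8 * 2 ^ q + 1) ^ 3 := by
    unfold Pool.Agent.Vrd.grid
    refine Finset.card_image_le.trans ?_
    rw [Fintype.card_piFinset_const, Int.card_Icc]
    apply le_of_eq
    congr 1
    have : (4 * 2 ^ q + 1 - -(4 * 2 ^ q) : ℤ) = ((8 * 2 ^ q + 1 : ℕ) : ℤ) := by
      push_cast
      ring
    rw [this, Int.toNat_natCast]
  have h2 : ((grid q).card : ℝ) ≤ (9 * 2 ^ q) ^ 3 := by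
    have h3 : ((grid q).card : ℝ) ≤ ((8 * 2 ^ q + 1 : ℕ) : ℝ) ^ 3 := by exact_mod_cast h1
    refine h3.trans ?_
    push_cast
    have h4 : (1 : ℝ) ≤ 2 ^ q := one_le_pow₀ (by norm_num)
    exact pow_le_pow_left₀ (by positivity) (by linarith) 3
  have h5 : (0 : ℝ) ≤ lev q ^ 3 := by unfold Pool.Agent.Vrd.lev; positivity
  calc ((grid q).card : ℝ) * lev q ^ 3 ≤ (9 * 2 ^ q) ^ 3 * lev q ^ 3 :=
        mul_le_mul_of_nonneg_right h2 h5
    _ = 46656 := by
        unfold Pool.Agent.Vrd.lev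
        rw [← mul_pow]
        have : (9 * 2 ^ q * (4 * (1 / 2) ^ q) : ℝ) = 36 := by
          rw [one_div, inv_pow]
          field_simp
          norm_num
        rw [this]
        norm_num
    _ ≤ 50000 := by norm_num

theorem mnw_grid {q : ℕ} {z0 : Fin 3 → ℝ} (hz : z0 ∈ grid q) (k : Fin 3) : |z0 k| ≤ 2 := by
  unfold Pool.Agent.Vrd.grid at hz
  obtain ⟨m, hm, rfl⟩ := Finset.mem_image.1 hz
  have h1 := Fintype.mem_piFinset.1 hm k
  rw [Finset.mem_Icc] at h1
  have h2 : |(m k : ℝ)| ≤ 4 * 2 ^ q := by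
    rw [abs_le]
    constructor
    · have := h1.1
      have h3 : ((-(4 * 2 ^ q) : ℤ) : ℝ) ≤ (m k : ℝ) := by exact_mod_cast this
      push_cast at h3
      exact h3
    · have := h1.2
      have h3 : (m k : ℝ) ≤ ((4 * 2 ^ q : ℤ) : ℝ) := by exact_mod_cast this
      push_cast at h3
      exact h3
  have h3 : (0 : ℝ) ≤ lev q / 8 := by unfold Pool.Agent.Vrd.lev; positivity
  simp only
  rw [abs_mul, abs_of_nonneg h3]
  refine (mul_le_mul_of_nonneg_left h2 h3).trans (le_of_eq ?_)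
  unfold Pool.Agent.Vrd.lev
  rw [one_div, inv_pow]
  field_simp
  norm_num

theorem mnw_meas {n : ℕ} (δ : ℝ) (G : Fin n → (Fin n → E) × (Fin n → E) → ℝ)
    (hG : ∀ m, Measurable (G m)) :
    Measurable fun r : (Fin n → E) × (Fin n → E) => ∑' j : ℕ, ∑ i0, ∏ m, wt δ j (m = i0) (G m r) := by
  refine Measurable.tsum fun j => ?_
  refine Finset.measurable_sum _ fun i0 _ => ?_
  refine Finset.measurable_prod _ fun m _ => ?_
  exact (wt_measurable_real δ j (m = i0)).comp (hG m)

theorem mnw_near_meas {n : ℕ} (δ : ℝ) (z0 : Fin 3 → ℝ) :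
    Measurable fun r : (Fin n → E) × (Fin n → E) => ∑' j : ℕ, ∑ i0, ∏ m,
      wt δ j (m = i0) (dv (r.2 m) (nearPsi (r.1 m) z0)) := by
  apply mnw_meas δ (fun m r => dv (r.2 m) (nearPsi (r.1 m) z0))
  intro m
  have h1 : Measurable fun r : (Fin n → E) × (Fin n → E) => r.2 m :=
    (measurable_pi_apply m).comp measurable_snd
  have h2 : Measurable fun r : (Fin n → E) × (Fin n → E) => nearPsi (r.1 m) z0 := by
    unfold Pool.Agent.Vrd.nearPsi
    exact measurable_const.sub ((measurable_pi_apply m).comp measurable_fst)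
  have h3 := dv_measurable2.comp (h1.prodMk h2)
  simpa only [Function.comp_def] using! h3

theorem mnw_far_meas {n : ℕ} (δ : ℝ) (z0 : Fin 3 → ℝ) (c : Fin 3) (s : Bool) :
    Measurable fun r : (Fin n → E) × (Fin n → E) => ∑' j : ℕ, ∑ i0, ∏ m,
      wt δ j (m = i0) (dv (r.2 m) (farPsi c (sgn s) (r.1 m) z0)) := by
  apply mnw_meas δ (fun m r => dv (r.2 m) (farPsi c (sgn s) (r.1 m) z0))
  intro m
  have h1 : Measurable fun r : (Fin n → E) × (Fin n → E) => r.2 m :=
    (measurable_pi_apply m).comp measurable_snd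
  have h2 : Measurable fun r : (Fin n → E) × (Fin n → E) => farPsi c (sgn s) (r.1 m) z0 := by
    unfold Pool.Agent.Vrd.farPsi
    exact measurable_const.sub (((measurable_pi_apply m).comp measurable_fst).const_smul (z0 2))
  have h3 := dv_measurable2.comp (h1.prodMk h2)
  simpa only [Function.comp_def] using! h3

/-- The expected number of all faces of the whole diagram. -/
theorem main_whole (K : ℝ≥0) : ∃ C : ℝ, 0 < C ∧ ∀ n : ℕ, 0 < n → ∀ f g : Fin n → E → ℝ≥0,
    (∀ i, LipschitzWith K (f i)) → (∀ i, LipschitzWith K (g i)) →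
    (∀ i x, 1 < ‖x‖ → f i x = 0) → (∀ i x, 1 < ‖x‖ → g i x = 0) →
    (∀ i, ∫⁻ x, f i x = 1) → (∀ i, ∫⁻ x, g i x = 1) →
    ∃ F : (Fin n → E) × (Fin n → E) → ℝ≥0∞, Measurable F ∧
      (∀ q, (((Faces q.2 q.1).encard : ℕ∞) : ℝ≥0∞) ≤ F q) ∧
      ∫⁻ q, F q ∂((Measure.pi fun i => (volume : Measure E).withDensity fun x => (f i x : ℝ≥0∞)).prod
        (Measure.pi fun i => (volume : Measure E).withDensity fun x => (g i x : ℝ≥0∞))) ≤
        ENNReal.ofReal (C * n ^ (3 / 2 : ℝ)) := by
  classical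
  obtain ⟨c, hc, hfar⟩ := far_point K
  have hK0 : (0 : ℝ) ≤ K := K.2
  set c' : ℝ := min 1 (min c (1 / (4000 * K + 1))) with hc'
  have hc'0 : 0 < c' := by positivity
  have hc'1 : c' ≤ 1 := min_le_left _ _
  have hc'c : c' ≤ c := (min_le_right _ _).trans (min_le_left _ _)
  have hc'K : 4000 * K * c' ≤ 1 := by
    have h1 : c' ≤ 1 / (4000 * K + 1) := (min_le_right _ _).trans (min_le_right _ _)
    rw [le_div_iff₀ (by positivity)] at h1
    have : 0 ≤ c' := hc'0.le
    nlinarith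
  set B : ℝ := 10000000 * (8 * Real.exp 56) + 6 * (10000000 * (4 * Real.exp 79)) with hB
  have hB0 : 0 < B := by positivity
  refine ⟨50000 / c' ^ 3 * B, by positivity, ?_⟩
  intro n hn f g hfK hgK hf0 hg0 hf1 hg1
  have hn0 : (0 : ℝ) < n := by exact_mod_cast hn
  have hn1 : (1 : ℝ) ≤ n := by exact_mod_cast hn
  have hs0 : 0 < Real.sqrt n := Real.sqrt_pos.2 hn0
  have hs1 : 1 ≤ Real.sqrt n := by rw [Real.one_le_sqrt]; exact hn1
  have hs2 : Real.sqrt n ^ 2 = n := Real.sq_sqrt hn0.le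
  set x : ℝ := c' / Real.sqrt n with hx
  have hx0 : 0 < x := by positivity
  have hxc : x ≤ c' := div_le_self hc'0.le hs1
  obtain ⟨q0, hq1, hq2⟩ := exists_level hx0 (hxc.trans hc'1)
  have hl0 : 0 < lev q0 := by unfold Pool.Agent.Vrd.lev; positivity
  have hδ : 0 < lev q0 / 2 := by positivity
  have hnδ : n * (lev q0 / 2) ^ 2 ≤ c' := by
    have h1 : (lev q0 / 2) ^ 2 ≤ x ^ 2 := pow_le_pow_left₀ hδ.le hq1 2
    have h2 : n * x ^ 2 = c' ^ 2 := by
      rw [hx, div_pow, hs2]
      field_simp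
    have h3 : c' ^ 2 ≤ c' := by nlinarith
    calc n * (lev q0 / 2) ^ 2 ≤ n * x ^ 2 := mul_le_mul_of_nonneg_left h1 hn0.le
      _ ≤ c' := by rw [h2]; exact h3
  have hfm : ∀ i, Measurable (f i) := fun i => (hfK i).continuous.measurable
  have hgm : ∀ i, Measurable (g i) := fun i => (hgK i).continuous.measurable
  have pf : ∀ i, IsProbabilityMeasure ((volume : Measure E).withDensity fun x => (f i x : ℝ≥0∞)) :=
    fun i => Pool.Agent.Vor.main_prob (hf1 i)
  have pg : ∀ i, IsProbabilityMeasure ((volume : Measure E).withDensity fun x => (g i x : ℝ≥0∞)) :=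
    fun i => Pool.Agent.Vor.main_prob (hg1 i)
  set μ : Fin n → Measure E := fun i => (volume : Measure E).withDensity fun x => (f i x : ℝ≥0∞)
    with hμ
  set ν : Fin n → Measure E := fun i => (volume : Measure E).withDensity fun x => (g i x : ℝ≥0∞)
    with hν
  have hμ0 : ∀ i, μ i {x | 1 < ‖x‖} = 0 := fun i => mnw_null (hf0 i)
  have hν0 : ∀ i, ν i {0} = 0 := fun i =>
    (withDensity_absolutelyContinuous _ _) (measure_singleton (0 : E))
  set W : (Fin n → E) × (Fin n → E) → ℝ≥0∞ := fun r =>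
      (∑ z0 ∈ grid q0, 10000000 * ∑' j : ℕ, ∑ i0, ∏ m,
        wt (lev q0 / 2) j (m = i0) (dv (r.2 m) (nearPsi (r.1 m) z0))) +
      ∑ c : Fin 3, ∑ s : Bool, ∑ z0 ∈ farGrid q0, 10000000 * ∑' j : ℕ, ∑ i0, ∏ m,
        wt (lev q0 / 2) j (m = i0) (dv (r.2 m) (farPsi c (sgn s) (r.1 m) z0)) with hW
  have hWm : Measurable W := weight_measurable (lev q0 / 2) q0
  have hSm : MeasurableSet {q : (Fin n → E) × (Fin n → E) | ∀ m, ‖q.1 m‖ ≤ 1} := by
    have : {q : (Fin n → E) × (Fin n → E) | ∀ m, ‖q.1 m‖ ≤ 1} =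
        ⋂ m, {q : (Fin n → E) × (Fin n → E) | ‖q.1 m‖ ≤ 1} := by
      ext q
      simp
    rw [this]
    refine MeasurableSet.iInter fun m => ?_
    exact measurableSet_le (((measurable_pi_apply m).comp measurable_fst).norm) measurable_const
  refine ⟨fun q => if ∀ m, ‖q.1 m‖ ≤ 1 then W q else ⊤, Measurable.ite hSm hWm measurable_const,
    ?_, ?_⟩
  · intro q
    by_cases h : ∀ m, ‖q.1 m‖ ≤ 1
    · simp only [h, implies_true, if_true]
      exact all_faces hn q.2 q.1 h q0
    · simp only [if_neg h]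
      exact le_top
  · have hae : (fun q : (Fin n → E) × (Fin n → E) => if ∀ m, ‖q.1 m‖ ≤ 1 then W q else ⊤)
        =ᵐ[(Measure.pi μ).prod (Measure.pi ν)] W := by
      filter_upwards [mnw_ae μ ν hμ0] with q hq
      simp only [hq, implies_true, if_true]
    rw [lintegral_congr_ae hae]
    have hT : (10000000 : ℝ≥0∞) = ENNReal.ofReal 10000000 := by norm_num
    have hnear : ∀ z0 ∈ grid q0, ∫⁻ r, (10000000 * ∑' j : ℕ, ∑ i0, ∏ m,
        wt (lev q0 / 2) j (m = i0) (dv (r.2 m) (nearPsi (r.1 m) z0)))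
        ∂((Measure.pi μ).prod (Measure.pi ν)) ≤ ENNReal.ofReal (10000000 * (8 * Real.exp 56)) := by
      intro z0 hz0
      rw [lintegral_const_mul' _ _ (by norm_num), ENNReal.ofReal_mul (by norm_num), ← hT]
      refine mul_le_mul' le_rfl (near_fubini μ ν hν0 (lev q0 / 2) z0 fun v hv => ?_)
      refine near_point hn hfK hf0 hf1 hδ ?_ hv (fun k => mnw_grid hz0 k)
      have : 4000 * (K : ℝ) * n * (lev q0 / 2) ^ 2 = 4000 * K * (n * (lev q0 / 2) ^ 2) := by ring
      rw [this]
      exact (mul_le_mul_of_nonneg_left hnδ (by positivity)).trans hc'K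
    have hfarb : ∀ (c : Fin 3) (s : Bool), ∀ z0 ∈ farGrid q0, ∫⁻ r, (10000000 * ∑' j : ℕ, ∑ i0, ∏ m,
        wt (lev q0 / 2) j (m = i0) (dv (r.2 m) (farPsi c (sgn s) (r.1 m) z0)))
        ∂((Measure.pi μ).prod (Measure.pi ν)) ≤ ENNReal.ofReal (10000000 * (4 * Real.exp 79)) := by
      intro c s z0 hz0
      rw [lintegral_const_mul' _ _ (by norm_num), ENNReal.ofReal_mul (by norm_num), ← hT]
      refine mul_le_mul' le_rfl (far_fubini μ ν hμ0 (lev q0 / 2) hz0 c s fun w hw => ?_)
      exact hfar n hn g hgK hg0 hg1 (lev q0 / 2) hδ ((hq1.trans hxc).trans hc'c) (hnδ.trans hc'c) w hw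
    have hcard : ((grid q0).card : ℝ) ≤ 50000 / c' ^ 3 * n ^ (3 / 2 : ℝ) := by
      have h1 := mnw_card q0
      have h2 : x ≤ lev q0 := by linarith
      have h3 : x ^ 3 ≤ lev q0 ^ 3 := pow_le_pow_left₀ hx0.le h2 3
      have h4 : ((grid q0).card : ℝ) * x ^ 3 ≤ 50000 :=
        (mul_le_mul_of_nonneg_left h3 (Nat.cast_nonneg _)).trans h1
      have h5 : x ^ 3 = c' ^ 3 / n ^ (3 / 2 : ℝ) := by
        rw [hx, div_pow]
        congr 1
        rw [Real.sqrt_eq_rpow, ← Real.rpow_natCast, ← Real.rpow_mul hn0.le]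
        norm_num
      rw [h5] at h4
      have h6 : 0 < (n : ℝ) ^ (3 / 2 : ℝ) := Real.rpow_pos_of_pos hn0 _
      have h7 : 0 < c' ^ 3 := by positivity
      rw [mul_div_assoc', div_le_iff₀ h6] at h4
      rw [div_mul_eq_mul_div, le_div_iff₀ h7]
      exact h4
    have hfc : ((farGrid q0).card : ℝ) ≤ ((grid q0).card : ℝ) := by
      have : (farGrid q0).card ≤ (grid q0).card := Finset.card_filter_le _ _
      exact_mod_cast this
    have hWs : ∫⁻ r, W r ∂((Measure.pi μ).prod (Measure.pi ν)) ≤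
        ∑ z0 ∈ grid q0, ENNReal.ofReal (10000000 * (8 * Real.exp 56)) +
        ∑ c : Fin 3, ∑ s : Bool, ∑ z0 ∈ farGrid q0, ENNReal.ofReal (10000000 * (4 * Real.exp 79)) := by
      simp only [hW]
      rw [lintegral_add_left (Finset.measurable_sum _ fun z0 _ =>
        (mnw_near_meas (lev q0 / 2) z0).const_mul _)]
      refine add_le_add ?_ ?_
      · rw [lintegral_finsetSum _ (fun z0 _ => (mnw_near_meas (lev q0 / 2) z0).const_mul _)]
        exact Finset.sum_le_sum hnear
      · rw [lintegral_finsetSum _ (fun c _ => Finset.measurable_sum _ fun s _ =>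
          Finset.measurable_sum _ fun z0 _ => (mnw_far_meas (lev q0 / 2) z0 c s).const_mul _)]
        refine Finset.sum_le_sum fun c _ => ?_
        rw [lintegral_finsetSum _ (fun s _ =>
          Finset.measurable_sum _ fun z0 _ => (mnw_far_meas (lev q0 / 2) z0 c s).const_mul _)]
        refine Finset.sum_le_sum fun s _ => ?_
        rw [lintegral_finsetSum _ (fun z0 _ => (mnw_far_meas (lev q0 / 2) z0 c s).const_mul _)]
        exact Finset.sum_le_sum (hfarb c s)
    refine hWs.trans ?_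
    simp only [Finset.sum_const, nsmul_eq_mul, Finset.card_univ, Fintype.card_fin, Fintype.card_bool]
    rw [← ENNReal.ofReal_natCast (grid q0).card, ← ENNReal.ofReal_natCast (farGrid q0).card,
      ← ENNReal.ofReal_mul (Nat.cast_nonneg _), ← ENNReal.ofReal_mul (Nat.cast_nonneg _),
      ← ENNReal.ofReal_natCast 2, ← ENNReal.ofReal_natCast 3,
      ← ENNReal.ofReal_mul (Nat.cast_nonneg _), ← ENNReal.ofReal_mul (Nat.cast_nonneg _),
      ← ENNReal.ofReal_add (by positivity) (by positivity)]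
    apply ENNReal.ofReal_le_ofReal
    have e1 : (0 : ℝ) ≤ 10000000 * (4 * Real.exp 79) := by positivity
    have e2 := mul_le_mul_of_nonneg_right hfc e1
    have e3 := mul_le_mul_of_nonneg_right hcard hB0.le
    push_cast
    calc ((grid q0).card : ℝ) * (10000000 * (8 * Real.exp 56)) +
          3 * (2 * (((farGrid q0).card : ℝ) * (10000000 * (4 * Real.exp 79)))) ≤
          ((grid q0).card : ℝ) * (10000000 * (8 * Real.exp 56)) +
          3 * (2 * (((grid q0).card : ℝ) * (10000000 * (4 * Real.exp 79)))) := by linarith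
      _ = ((grid q0).card : ℝ) * B := by rw [hB]; ring
      _ ≤ 50000 / c' ^ 3 * n ^ (3 / 2 : ℝ) * B := e3
      _ = 50000 / c' ^ 3 * B * n ^ (3 / 2 : ℝ) := by ring
-- END mnw

end Pool.Agent.Vws
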